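import Pool.Agent.H84.PT.Def
import Pool.Agent.H84.BR.Pla

/-!
PolynomialThreshold (MP_8f2e1c_an): a polynomial all whose critical points escape is hyperbolic.
-/

set_option autoImplicit false

open Filter Topology Polynomial Set

namespace Pool.Agent.H84.PT

open Pool.Agent.H44.Fatou Pool.Agent.H32.BT Pool.Agent.H84.BR
open Pool.Agent.H85.LD (Nd)

/-- infinity is fixed -/
theorem inf_fix {T : ℂ[X]} (hT : 1 ≤ T.natDegree) : rat T 1 (OnePoint.infty : OnePoint ℂ) = OnePoint.infty := by
  rw [rat_infty, dg, natDegree_one, Nat.max_zero, coeff_one, if_neg (by omega)]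
  unfold pt
  rw [if_pos rfl]

/-- escape in the sphere -/
theorem esc_conv {T : ℂ[X]} {z : ℂ} (h : Esc T z) :
    Tendsto (fun k : ℕ => (rat T 1)^[k] (z : OnePoint ℂ)) atTop (𝓝 OnePoint.infty) := by
  simp only [pla_iter]
  have h5 : Tendsto (fun k : ℕ => (fun w : ℂ => T.eval w)^[k] z) atTop (coclosedCompact ℂ) := by
    rw [coclosedCompact_eq_cocompact, ← Metric.cobounded_eq_cocompact]
    exact tendsto_norm_atTop_iff_cobounded.1 h
  exact OnePoint.tendsto_coe_infty.comp h5

/-- large points escape -/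
theorem esc_large {T : ℂ[X]} {ρ : ℝ} (hρ : 0 < ρ) (hg : ∀ z : ℂ, ρ ≤ ‖z‖ → 2 * ‖z‖ ≤ ‖T.eval z‖) {z : ℂ}
    (hz : ρ ≤ ‖z‖) : Esc T z := by
  have h2 : ∀ k : ℕ, 2 ^ k * ρ ≤ ‖(fun w : ℂ => T.eval w)^[k] z‖ := by
    intro k
    induction k with
    | zero => simpa using hz
    | succ k ih =>
      rw [Function.iterate_succ_apply']
      have h3 : (1 : ℝ) ≤ 2 ^ k := one_le_pow₀ (by norm_num)
      have h4 : ρ ≤ ‖(fun w : ℂ => T.eval w)^[k] z‖ := by nlinarith
      have h5 := hg _ h4
      have h6 : (2 : ℝ) ^ (k + 1) * ρ = 2 * (2 ^ k * ρ) := by ring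
      rw [h6]
      exact (mul_le_mul_of_nonneg_left ih (by norm_num)).trans h5
  have h3 : Tendsto (fun k : ℕ => (2 : ℝ) ^ k * ρ) atTop atTop :=
    (tendsto_pow_atTop_atTop_of_one_lt (by norm_num)).atTop_mul_const hρ
  exact tendsto_atTop_mono h2 h3

/-- the point escapes if its image escapes -/
theorem esc_step {T : ℂ[X]} {z : ℂ} (h : Esc T (T.eval z)) : Esc T z := by
  unfold Esc at h ⊢
  rw [← tendsto_add_atTop_iff_nat 1]
  exact h.congr fun k => by rw [Function.iterate_succ_apply]

/-- infinity is a sink of a polynomial of degree at least two -/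
theorem inf_sink {T : ℂ[X]} (hT : 2 ≤ T.natDegree) : IsSink (rat T 1) OnePoint.infty 1 := by
  obtain ⟨ρ0, hρ, hg⟩ := pla_grow hT
  have hfix := inf_fix (T := T) (by omega)
  refine ⟨one_pos, hfix, ((fun z : ℂ => (z : OnePoint ℂ)) '' Metric.closedBall 0 ρ0)ᶜ, ?_, ?_⟩
  · have h1 : IsCompact ((fun z : ℂ => (z : OnePoint ℂ)) '' Metric.closedBall 0 ρ0) :=
      (isCompact_closedBall (0 : ℂ) ρ0).image OnePoint.continuous_coe
    exact h1.isClosed.isOpen_compl.mem_nhds OnePoint.infty_notMem_image_coe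
  · intro x hx
    simp only [one_mul]
    induction x using OnePoint.rec with
    | infty =>
      have h1 : ∀ k : ℕ, (rat T 1)^[k] (OnePoint.infty : OnePoint ℂ) = OnePoint.infty := fun k =>
        Function.iterate_fixed hfix k
      simp only [h1]
      exact tendsto_const_nhds
    | coe z =>
      refine esc_conv (esc_large (by linarith) hg ?_)
      by_contra h1
      exact hx ⟨z, mem_closedBall_zero_iff.2 (not_le.1 h1).le, rfl⟩

/-- a polynomial all whose critical points escape is hyperbolic -/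
theorem shift_hyp {T : ℂ[X]} (hT : 2 ≤ T.natDegree) (hs : Shift T) : HypMap (rat T 1) := by
  intro c hc
  refine ⟨OnePoint.infty, 1, inf_sink hT, ?_⟩
  simp only [one_mul]
  induction c using OnePoint.rec with
  | infty =>
    have h1 : ∀ k : ℕ, (rat T 1)^[k] (OnePoint.infty : OnePoint ℂ) = OnePoint.infty := fun k =>
      Function.iterate_fixed (inf_fix (by omega)) k
    simp only [h1]
    exact tendsto_const_nhds
  | coe z =>
    have h1 := crit_coe hc
    have h2 : T.derivative.eval z = 0 := by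
      unfold Wr at h1
      simpa using h1
    exact esc_conv (hs z h2)

theorem shift_pol {d : ℕ} (hd : 2 ≤ d) {κ : ℝ} (h : ShiftApp d κ) : PolApp d κ := by
  intro P hP
  obtain ⟨P', h1, h2, h3⟩ := h P hP
  exact ⟨P', h1, shift_hyp (by omega) h2, h3⟩

end Pool.Agent.H84.PT
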