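import Pool.Agent.H84.PT.Shp
import Pool.Agent.H84.BR.Plc

/-!
PolynomialThreshold (MP_8f2e1c_an), part (3): Fatou's conjecture for polynomials is equivalent to `liminf d D_pol(d) = 0`.
-/

set_option autoImplicit false

open Filter Topology Polynomial Set

namespace Pool.Agent.H84.PT

open Pool.Agent.H44.Fatou Pool.Agent.H32.BT Pool.Agent.H84.BR
open Pool.Agent.H85.LD (Nd)

/-- the rescaled polynomial `r P'(w / r)`, `r = √d` -/
noncomputable def Rs (d : ℕ) (P' : ℂ[X]) : ℂ[X] := C ((Real.sqrt d : ℝ) : ℂ) * P'.comp (C (((Real.sqrt d : ℝ) : ℂ)⁻¹) * X)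

theorem Rs_eval (d : ℕ) (P' : ℂ[X]) (w : ℂ) :
    (Rs d P').eval w = ((Real.sqrt d : ℝ) : ℂ) * P'.eval ((((Real.sqrt d : ℝ) : ℂ)⁻¹) * w) := by
  unfold Rs
  rw [eval_mul, eval_C, eval_comp, eval_mul, eval_C, eval_X]

/-- the embedding of `T` in degree `d` -/
theorem scl {n : ℕ} {T : ℂ[X]} (hT : T.natDegree ≤ n) {η : ℝ} (hη : 0 < η) (R : ℝ) :
    ∃ c : ℝ, 0 < c ∧ ∃ d0 : ℕ, ∀ d : ℕ, d0 ≤ d → ∃ P : ℂ[X], P.natDegree ≤ d ∧
      ∀ P' : ℂ[X], P'.natDegree = d → Nd d (P - P') ≤ c / d * (1 + Nd d P) →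
        ∀ w : ℂ, ‖w‖ ≤ R → ‖(Rs d P').eval w - T.eval w‖ ≤ η := by
  obtain ⟨C1, hC1, hN⟩ := Nd_scaled hT
  obtain ⟨E, hE⟩ : ∃ E : ℝ, E = Real.exp (R ^ 2) := ⟨_, rfl⟩
  have hE0 : 0 < E := by rw [hE]; exact Real.exp_pos _
  refine ⟨η ^ 2 / ((1 + C1) * E), by positivity, max 2 (2 * n), fun d hd => ?_⟩
  have hd2 : 2 ≤ d := (le_max_left _ _).trans hd
  have hdn : 2 * n ≤ d := (le_max_right _ _).trans hd
  obtain ⟨r, hr⟩ : ∃ r : ℝ, r = Real.sqrt d := ⟨_, rfl⟩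
  have hdR : (1 : ℝ) ≤ (d : ℝ) := by exact_mod_cast (by omega : 1 ≤ d)
  have hr1 : 1 ≤ r := by rw [hr]; exact Real.one_le_sqrt.2 hdR
  have hr2 : r ^ 2 = d := by rw [hr]; exact Real.sq_sqrt (by positivity)
  have hr0 : (r : ℂ) ≠ 0 := by
    rw [Ne, Complex.ofReal_eq_zero]
    linarith
  have hN' := hN d (by omega) hdn
  rw [← hr] at hN'
  have hPd : (C ((r : ℂ)⁻¹) * T.comp (C (r : ℂ) * X)).natDegree ≤ d := by
    refine (natDegree_C_mul_le _ _).trans ?_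
    rw [em_deg hr0]
    omega
  refine ⟨C ((r : ℂ)⁻¹) * T.comp (C (r : ℂ) * X), hPd, fun P' hP' hn w hw => ?_⟩
  obtain ⟨P1, hP1⟩ : ∃ P1, P1 = C ((r : ℂ)⁻¹) * T.comp (C (r : ℂ) * X) := ⟨_, rfl⟩
  rw [← hP1] at hn hPd
  have hb1 : Nd d P1 ≤ C1 := by
    rw [hP1, em_mul, norm_inv, Complex.norm_real, Real.norm_of_nonneg (by linarith)]
    have h1 : (r⁻¹) ^ 2 ≤ 1 := by
      apply pow_le_one₀ (by positivity)
      exact inv_le_one_of_one_le₀ hr1
    calc (r⁻¹) ^ 2 * Nd d (T.comp (C (r : ℂ) * X)) ≤ 1 * Nd d (T.comp (C (r : ℂ) * X)) :=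
          mul_le_mul_of_nonneg_right h1 (em_nn _ _)
      _ ≤ C1 := by rw [one_mul]; exact hN'
  have hdpos : (0 : ℝ) < d := by linarith
  have hn2 : Nd d (P1 - P') ≤ η ^ 2 / E / d := by
    refine hn.trans ?_
    have h1 : η ^ 2 / ((1 + C1) * E) / d * (1 + Nd d P1) ≤ η ^ 2 / ((1 + C1) * E) / d * (1 + C1) := by
      apply mul_le_mul_of_nonneg_left _ (by positivity)
      linarith
    refine h1.trans (le_of_eq ?_)
    field_simp
  have hdP : (P1 - P').natDegree ≤ d := (natDegree_sub_le _ _).trans (max_le hPd hP'.le)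
  have e1 := Nd_eval_scaled (by omega : 1 ≤ d) hdP hw
  have hwE : w / ((Real.sqrt d : ℝ) : ℂ) = (r : ℂ)⁻¹ * w := by
    rw [← hr]
    field_simp
  rw [hwE, ← hE] at e1
  have f1 : (Rs d P').eval w - T.eval w = -((r : ℂ) * (P1 - P').eval ((r : ℂ)⁻¹ * w)) := by
    rw [Rs_eval, ← hr, hP1, eval_sub, eval_mul, eval_C, eval_comp, eval_mul, eval_C, eval_X,
      mul_inv_cancel_left₀ hr0]
    field_simp
    ring
  rw [f1, norm_neg, norm_mul, Complex.norm_real, Real.norm_of_nonneg (by linarith)]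
  refine (pow_le_pow_iff_left₀ (by positivity) hη.le two_ne_zero).1 ?_
  rw [mul_pow, hr2]
  calc (d : ℝ) * ‖(P1 - P').eval ((r : ℂ)⁻¹ * w)‖ ^ 2 ≤ d * (Nd d (P1 - P') * E) :=
        mul_le_mul_of_nonneg_left e1 hdpos.le
    _ ≤ d * (η ^ 2 / E / d * E) := by gcongr
    _ = η ^ 2 := by field_simp

theorem Rs_deg {d : ℕ} (hd : 1 ≤ d) (P' : ℂ[X]) : (Rs d P').natDegree = P'.natDegree := by
  have hr : ((Real.sqrt d : ℝ) : ℂ) ≠ 0 := by
    rw [Ne, Complex.ofReal_eq_zero, Real.sqrt_eq_zero (by positivity)]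
    exact_mod_cast (by omega : d ≠ 0)
  unfold Rs
  rw [natDegree_C_mul hr, em_deg (inv_ne_zero hr)]

theorem Rs_hyp {d : ℕ} (hd : 1 ≤ d) {P' : ℂ[X]} (h : HypMap (rat P' 1)) : HypMap (rat (Rs d P') 1) := by
  have hr : ((Real.sqrt d : ℝ) : ℂ) ≠ 0 := by
    rw [Ne, Complex.ofReal_eq_zero, Real.sqrt_eq_zero (by positivity)]
    exact_mod_cast (by omega : d ≠ 0)
  refine (scale_sphere hr isCoprime_one_right isCoprime_one_right (fun z => ?_) (fun z => ?_)).2 h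
  · rw [Rs_eval, inv_mul_cancel_left₀ hr]
  · rw [eval_one, eval_one]

/-- error `o(1/d)` for a sequence of degrees gives Fatou's conjecture for polynomials -/
theorem fatou_of_pol (hA : ∀ c : ℝ, 0 < c → ∀ d0 : ℕ, ∃ d : ℕ, d0 ≤ d ∧ PolApp d (c / d)) {n : ℕ} (hn : 2 ≤ n)
    {T : ℂ[X]} (hT : T.natDegree = n) : LimP n T := by
  by_contra hL
  obtain ⟨η, R, hη, hno⟩ := noHypP (straightP hn hT) hL
  obtain ⟨c, hc, d0, H⟩ := scl hT.le hη R
  obtain ⟨d, hd, hAd⟩ := hA c hc (max d0 2)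
  obtain ⟨P, h1, h2⟩ := H d (le_of_max_le_left hd)
  have hd2 : 2 ≤ d := le_of_max_le_right hd
  obtain ⟨P', k1, k2, k3⟩ := hAd P h1
  refine hno (Rs d P') 1 isCoprime_one_right ?_ (fun w hw => ⟨h2 P' k1 k3 w hw, ?_⟩) (Rs_hyp (by omega) k2)
  · rw [Rs_deg (by omega), k1]
    exact hd2.trans (le_max_left _ _)
  · rw [sub_self, norm_zero]
    exact hη.le

theorem Nd_small {d : ℕ} {E : ℂ[X]} {δ : ℝ} (h : ∀ i : ℕ, ‖E.coeff i‖ ≤ δ) : Nd d E ≤ (d + 1) * δ ^ 2 := by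
  unfold Pool.Agent.H85.LD.Nd
  have h1 : ∀ k ∈ Finset.range (d + 1), ‖E.coeff k‖ ^ 2 / (d.choose k : ℝ) ≤ δ ^ 2 := by
    intro k hk
    have h2 : (1 : ℝ) ≤ (d.choose k : ℝ) := by
      exact_mod_cast Nat.choose_pos (Nat.lt_succ_iff.1 (Finset.mem_range.1 hk))
    have h3 : ‖E.coeff k‖ ^ 2 ≤ δ ^ 2 := by
      have := h k
      gcongr
    exact (div_le_self (by positivity) h2).trans h3
  refine (Finset.sum_le_sum h1).trans (le_of_eq ?_)
  rw [Finset.sum_const, Finset.card_range, nsmul_eq_mul]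
  push_cast
  ring

/-- Fatou's conjecture for polynomials gives every error in every degree -/
theorem pol_of_fatou (hF : ∀ (n : ℕ) (T : ℂ[X]), 2 ≤ n → T.natDegree = n → LimP n T) {d : ℕ} (hd : 2 ≤ d) {κ : ℝ}
    (hκ : 0 < κ) : PolApp d κ := by
  intro P hP
  obtain ⟨δ, hδ⟩ : ∃ δ : ℝ, δ = min 1 (κ / (4 * (d + 1))) := ⟨_, rfl⟩
  have hδ0 : 0 < δ := by
    rw [hδ]
    exact lt_min one_pos (by positivity)
  have hδ1 : δ ≤ 1 := by rw [hδ]; exact min_le_left _ _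
  have hδ2 : δ * (4 * (d + 1)) ≤ κ := by
    have h1 : δ ≤ κ / (4 * (d + 1)) := by rw [hδ]; exact min_le_right _ _
    rwa [le_div_iff₀ (by positivity)] at h1
  obtain ⟨t, ht1, ht2⟩ : ∃ t : ℂ, ‖t‖ ≤ δ ∧ P.coeff d + t ≠ 0 := by
    by_cases h0 : P.coeff d = 0
    · refine ⟨(δ : ℂ), ?_, ?_⟩
      · rw [Complex.norm_real, Real.norm_of_nonneg hδ0.le]
      · rw [h0, zero_add, Ne, Complex.ofReal_eq_zero]
        exact hδ0.ne'
    · exact ⟨0, by rw [norm_zero]; exact hδ0.le, by rwa [add_zero]⟩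
  obtain ⟨T, hTdef⟩ : ∃ T, T = P + C t * X ^ d := ⟨_, rfl⟩
  have hTc : ∀ i, T.coeff i - P.coeff i = if i = d then t else 0 := by
    intro i
    rw [hTdef, coeff_add, coeff_C_mul, coeff_X_pow]
    split_ifs <;> ring
  have hTd : T.natDegree = d := by
    refine le_antisymm ?_ (le_natDegree_of_ne_zero ?_)
    · rw [hTdef]
      refine (natDegree_add_le _ _).trans (max_le hP (natDegree_C_mul_X_pow_le _ _))
    · have h1 := hTc d
      rw [if_pos rfl] at h1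
      have h2 : T.coeff d = P.coeff d + t := by rw [← h1]; ring
      rw [h2]
      exact ht2
  obtain ⟨T', h1, h2, h3⟩ := hF d T hd hTd δ hδ0
  refine ⟨T', h1, h3, ?_⟩
  have h4 : ∀ i : ℕ, ‖(P - T').coeff i‖ ≤ 2 * δ := by
    intro i
    have e1 : (P - T').coeff i = -(T'.coeff i - T.coeff i) - (T.coeff i - P.coeff i) := by
      rw [coeff_sub]
      ring
    rw [e1]
    refine (norm_sub_le _ _).trans ?_
    rw [norm_neg, hTc]
    have e2 := (h2 i).le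
    have e3 : ‖(if i = d then t else 0 : ℂ)‖ ≤ δ := by
      split_ifs
      · exact ht1
      · rw [norm_zero]
        exact hδ0.le
    linarith
  have h5 := Nd_small (d := d) h4
  have h6 : ((d : ℝ) + 1) * (2 * δ) ^ 2 ≤ κ := by
    calc ((d : ℝ) + 1) * (2 * δ) ^ 2 = δ * (4 * (d + 1)) * δ := by ring
      _ ≤ δ * (4 * (d + 1)) * 1 := mul_le_mul_of_nonneg_left hδ1 (by positivity)
      _ ≤ κ := by rw [mul_one]; exact hδ2
  have h7 := em_nn d P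
  nlinarith

/-- Fatou's conjecture for polynomials holds if and only if `liminf d D_pol(d) = 0` -/
theorem pol_equiv : (∀ (n : ℕ) (T : ℂ[X]), 2 ≤ n → T.natDegree = n → LimP n T) ↔
    ∀ c : ℝ, 0 < c → ∀ d0 : ℕ, ∃ d : ℕ, d0 ≤ d ∧ PolApp d (c / d) := by
  constructor
  · intro hF c hc d0
    have h : 2 ≤ max d0 2 := le_max_right _ _
    have h1 : (0 : ℝ) < (max d0 2 : ℕ) := by exact_mod_cast (by omega : 0 < max d0 2)
    exact ⟨max d0 2, le_max_left _ _, pol_of_fatou hF h (by positivity)⟩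
  · intro hA n T hn hT
    exact fatou_of_pol hA hn hT

end Pool.Agent.H84.PT
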