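import Pool.Agent.H84.PT.Prt
import Pool.Agent.H84.PT.Eqv
import Pool.Agent.H84.BR.Stg
import Pool.Agent.H91.SR.Top

/-!
PolynomialThreshold (MP_8f2e1c_an), part (4): Fatou's conjecture for rational maps with an attracting cycle is equivalent to
`liminf d D_sink(d) = 0`.
-/

set_option autoImplicit false

open Filter Topology Polynomial OnePoint Set

namespace Pool.Agent.H84.PT

open Pool.Agent.H44.Fatou Pool.Agent.H32.BT Pool.Agent.H84.BR
open Pool.Agent.H85.LD (Nd)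

/-- every coprime pair of degree exactly `d` with an attracting cycle is within relative squared Bombieri-Weyl error `κ` of a
coprime hyperbolic pair of degree `d` -/
def SinkApp (d : ℕ) (κ : ℝ) : Prop := ∀ P Q : ℂ[X], IsCoprime P Q → max P.natDegree Q.natDegree = d →
  (∃ z m, IsSink (rat P Q) z m) → ∃ P' Q' : ℂ[X], IsCoprime P' Q' ∧ max P'.natDegree Q'.natDegree = d ∧
    HypMap (rat P' Q') ∧ Nd d (P - P') + Nd d (Q - Q') ≤ κ * (Nd d P + Nd d Q)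

theorem Nd_add (d : ℕ) (A B : ℂ[X]) : Nd d (A + B) ≤ 2 * Nd d A + 2 * Nd d B := by
  unfold Pool.Agent.H85.LD.Nd
  rw [Finset.mul_sum, Finset.mul_sum, ← Finset.sum_add_distrib]
  refine Finset.sum_le_sum fun k _ => ?_
  have h1 : ‖(A + B).coeff k‖ ^ 2 ≤ 2 * ‖A.coeff k‖ ^ 2 + 2 * ‖B.coeff k‖ ^ 2 := by
    rw [coeff_add]
    have h2 := norm_add_le (A.coeff k) (B.coeff k)
    have h3 : ‖A.coeff k + B.coeff k‖ ^ 2 ≤ (‖A.coeff k‖ + ‖B.coeff k‖) ^ 2 := by gcongr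
    nlinarith [sq_nonneg (‖A.coeff k‖ - ‖B.coeff k‖)]
  calc ‖(A + B).coeff k‖ ^ 2 / (d.choose k : ℝ) ≤ (2 * ‖A.coeff k‖ ^ 2 + 2 * ‖B.coeff k‖ ^ 2) / (d.choose k : ℝ) := by
        gcongr
    _ = 2 * (‖A.coeff k‖ ^ 2 / (d.choose k : ℝ)) + 2 * (‖B.coeff k‖ ^ 2 / (d.choose k : ℝ)) := by ring

/-- the scaled polynomial `T(r z)`, `r = √d` -/
noncomputable def Sc (d : ℕ) (T : ℂ[X]) : ℂ[X] := T.comp (C ((Real.sqrt d : ℝ) : ℂ) * X)

/-- the inverse scaling `T(z / r)` -/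
noncomputable def Si (d : ℕ) (T : ℂ[X]) : ℂ[X] := T.comp (C (((Real.sqrt d : ℝ) : ℂ)⁻¹) * X)

theorem Sc_eval (d : ℕ) (T : ℂ[X]) (z : ℂ) : (Sc d T).eval z = T.eval (((Real.sqrt d : ℝ) : ℂ) * z) := by
  unfold Sc
  rw [eval_comp, eval_mul, eval_C, eval_X]

theorem Si_eval (d : ℕ) (T : ℂ[X]) (z : ℂ) : (Si d T).eval z = T.eval ((((Real.sqrt d : ℝ) : ℂ)⁻¹) * z) := by
  unfold Si
  rw [eval_comp, eval_mul, eval_C, eval_X]

theorem sq_ne {d : ℕ} (hd : 1 ≤ d) : ((Real.sqrt d : ℝ) : ℂ) ≠ 0 := by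
  rw [Ne, Complex.ofReal_eq_zero, Real.sqrt_eq_zero (by positivity)]
  exact_mod_cast (by omega : d ≠ 0)

theorem Sc_deg {d : ℕ} (hd : 1 ≤ d) (T : ℂ[X]) : (Sc d T).natDegree = T.natDegree := em_deg (sq_ne hd) T

theorem Si_deg {d : ℕ} (hd : 1 ≤ d) (T : ℂ[X]) : (Si d T).natDegree = T.natDegree := em_deg (inv_ne_zero (sq_ne hd)) T

theorem Sc_cop {P Q : ℂ[X]} (h : IsCoprime P Q) (d : ℕ) : IsCoprime (Sc d P) (Sc d Q) :=
  h.map (compRingHom (C ((Real.sqrt d : ℝ) : ℂ) * X))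

theorem Si_cop {P Q : ℂ[X]} (h : IsCoprime P Q) (d : ℕ) : IsCoprime (Si d P) (Si d Q) :=
  h.map (compRingHom (C (((Real.sqrt d : ℝ) : ℂ)⁻¹) * X))

theorem Sc_sub (d : ℕ) (P Q : ℂ[X]) : Sc d (P - Q) = Sc d P - Sc d Q := sub_comp

theorem unit_cop {r : ℂ} (hr : r ≠ 0) {P Q : ℂ[X]} (h : IsCoprime P Q) : IsCoprime (C r * P) Q :=
  (isCoprime_mul_unit_left_left (isUnit_C.2 (isUnit_iff_ne_zero.2 hr)) _ _).2 h

/-- the conjugacy by the scaling `z ↦ r z` -/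
theorem scale_map {r : ℂ} (hr : r ≠ 0) {P Q A B : ℂ[X]} (h : IsCoprime P Q) (h' : IsCoprime A B)
    (hA : ∀ z, A.eval (r * z) = r * P.eval z) (hB : ∀ z, B.eval (r * z) = Q.eval z) :
    ∃ Φ : OnePoint ℂ ≃ₜ OnePoint ℂ, ∀ x, rat A B (Φ x) = Φ (rat P Q x) := by
  obtain ⟨Φ, hΦ⟩ : ∃ Φ : OnePoint ℂ ≃ₜ OnePoint ℂ, Φ = (Homeomorph.mulLeft₀ r hr).onePointCongr := ⟨_, rfl⟩
  have hco : ∀ z : ℂ, Φ (z : OnePoint ℂ) = ((r * z : ℂ) : OnePoint ℂ) := fun z => by rw [hΦ]; rfl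
  have hin : Φ OnePoint.infty = OnePoint.infty := by rw [hΦ]; rfl
  refine ⟨Φ, fun x => ?_⟩
  have h1 : Continuous fun x => rat A B (Φ x) := (rat_continuous h').comp Φ.continuous
  have h2 : Continuous fun x => Φ (rat P Q x) := Φ.continuous.comp (rat_continuous h)
  refine congrFun (Continuous.ext_on OnePoint.denseRange_coe h1 h2 ?_) x
  rintro _ ⟨z, rfl⟩
  show rat A B (Φ (z : OnePoint ℂ)) = Φ (rat P Q (z : OnePoint ℂ))
  rw [hco, rat_coe, rat_coe, hA, hB]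
  unfold pt
  by_cases hq : Q.eval z = 0
  · rw [if_pos hq, if_pos hq, hin]
  · rw [if_neg hq, if_neg hq, hco, mul_div_assoc]

/-- the sink survives the scaling -/
theorem Sc_sink {d : ℕ} (hd : 1 ≤ d) {P Q : ℂ[X]} (h : IsCoprime P Q) (hs : ∃ z m, IsSink (rat P Q) z m) :
    ∃ z m, IsSink (rat (C (((Real.sqrt d : ℝ) : ℂ)⁻¹) * Sc d P) (Sc d Q)) z m := by
  have hr := sq_ne hd
  obtain ⟨Φ, hΦ⟩ := scale_map (r := ((Real.sqrt d : ℝ) : ℂ)) hr
    (unit_cop (inv_ne_zero hr) (Sc_cop h d)) h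
    (P := C (((Real.sqrt d : ℝ) : ℂ)⁻¹) * Sc d P) (Q := Sc d Q)
    (fun z => by rw [eval_mul, eval_C, Sc_eval, mul_inv_cancel_left₀ hr])
    (fun z => by rw [Sc_eval])
  obtain ⟨z, m, hz⟩ := hs
  refine ⟨Φ.symm z, m, ?_⟩
  rw [← isSink_conj Φ hΦ, Φ.apply_symm_apply]
  exact hz

/-- hyperbolicity survives the inverse scaling -/
theorem Si_hyp {d : ℕ} (hd : 1 ≤ d) {P Q : ℂ[X]} (h : IsCoprime P Q) (hh : HypMap (rat P Q)) :
    HypMap (rat (C ((Real.sqrt d : ℝ) : ℂ) * Si d P) (Si d Q)) := by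
  have hr := sq_ne hd
  obtain ⟨Φ, hΦ⟩ := scale_map (r := ((Real.sqrt d : ℝ) : ℂ)) hr h (unit_cop hr (Si_cop h d))
    (A := C ((Real.sqrt d : ℝ) : ℂ) * Si d P) (B := Si d Q)
    (fun z => by rw [eval_mul, eval_C, Si_eval, inv_mul_cancel_left₀ hr])
    (fun z => by rw [Si_eval, inv_mul_cancel_left₀ hr])
  exact (hypMap_conj Φ hΦ).2 hh

theorem coeff_Sc (d : ℕ) (E : ℂ[X]) (k : ℕ) : (Sc d E).coeff k = E.coeff k * ((Real.sqrt d : ℝ) : ℂ) ^ k :=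
  comp_C_mul_X_coeff

theorem Nd_Sc_small {d : ℕ} (hd : 1 ≤ d) {E : ℂ[X]} {ε : ℝ} (hE : E.natDegree ≤ d)
    (h : ∀ i : ℕ, ‖E.coeff i‖ ≤ ε) : Nd d (Sc d E) ≤ (d + 1) * (ε * Real.sqrt d ^ d) ^ 2 := by
  have hε : 0 ≤ ε := (norm_nonneg _).trans (h 0)
  have h1 : 1 ≤ Real.sqrt d := Real.one_le_sqrt.2 (by exact_mod_cast hd)
  refine Nd_small fun i => ?_
  by_cases hi : i ≤ d
  · rw [coeff_Sc, norm_mul, norm_pow, Complex.norm_real, Real.norm_of_nonneg (Real.sqrt_nonneg _)]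
    have h2 : Real.sqrt d ^ i ≤ Real.sqrt d ^ d := pow_le_pow_right₀ h1 hi
    exact mul_le_mul (h i) h2 (by positivity) hε
  · rw [coeff_Sc, coeff_eq_zero_of_natDegree_lt (by omega), zero_mul, norm_zero]
    positivity

theorem eval_small {d : ℕ} {E : ℂ[X]} {ε R : ℝ} (hE : E.natDegree ≤ d) (h : ∀ i : ℕ, ‖E.coeff i‖ ≤ ε) (hR : 1 ≤ R)
    {w : ℂ} (hw : ‖w‖ ≤ R) : ‖E.eval w‖ ≤ (d + 1) * (ε * R ^ d) := by
  have hε : 0 ≤ ε := (norm_nonneg _).trans (h 0)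
  rw [eval_eq_sum_range' (Nat.lt_succ_of_le hE)]
  refine (norm_sum_le _ _).trans ?_
  have h1 : ∀ i ∈ Finset.range (d + 1), ‖E.coeff i * w ^ i‖ ≤ ε * R ^ d := by
    intro i hi
    have hi' : i ≤ d := Nat.lt_succ_iff.1 (Finset.mem_range.1 hi)
    rw [norm_mul, norm_pow]
    have h2 : ‖w‖ ^ i ≤ R ^ d := by
      have h3 : ‖w‖ ^ i ≤ R ^ i := pow_le_pow_left₀ (norm_nonneg _) hw i
      exact h3.trans (pow_le_pow_right₀ hR hi')
    exact mul_le_mul (h i) h2 (by positivity) hε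
  refine (Finset.sum_le_sum h1).trans (le_of_eq ?_)
  rw [Finset.sum_const, Finset.card_range, nsmul_eq_mul]
  push_cast
  ring

/-- error `o(1/d)` for a sequence of degrees, on the maps with an attracting cycle, gives Fatou's conjecture for them -/
theorem fatou_of_sink (hA : ∀ c : ℝ, 0 < c → ∀ d0 : ℕ, ∃ d : ℕ, d0 ≤ d ∧ SinkApp d (c / d)) {n : ℕ} (hn : 2 ≤ n)
    {P Q : ℂ[X]} (h : IsCoprime P Q) (hd : max P.natDegree Q.natDegree = n) (hs : ∃ z m, IsSink (rat P Q) z m) :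
    Lim n P Q := by
  by_contra hL
  obtain ⟨z0, m, hz0⟩ := hs
  obtain ⟨s, A, hG, z, hz, hzinf⟩ := good_chart2 hn h hd hz0
  have hP0 : P.natDegree ≤ n := by rw [← hd]; exact le_max_left _ _
  have hQ0 : Q.natDegree ≤ n := by rw [← hd]; exact le_max_right _ _
  have hL' : ¬ Lim n (cj1 s n P Q) (cj2 s n P Q) := fun hc => hL (lim_cj hn hP0 hQ0 s hc)
  obtain ⟨η, R0, hη, hno⟩ := noHyp (straight hG) hL'
  obtain ⟨T, hT⟩ : ∃ T, T = cj1 s n P Q := ⟨_, rfl⟩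
  obtain ⟨U, hU⟩ : ∃ U, U = cj2 s n P Q := ⟨_, rfl⟩
  rw [← hT, ← hU] at hno hL' hz hzinf hG
  have hcop := hG.cop
  have hTU : max T.natDegree U.natDegree = n := by rw [hG.degQ]; exact max_eq_right hG.degP
  -- a point which is not attracted
  obtain ⟨s', hs'⟩ : ∃ s' : ℂ, ¬ Att (rat T U) (s' : OnePoint ℂ) := by
    by_contra hcon
    push Not at hcon
    apply hL'
    intro ε hε
    refine ⟨T, U, hcop, hTU, fun i => ⟨by rwa [sub_self, norm_zero], by rwa [sub_self, norm_zero]⟩, fun c hc => ?_⟩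
    induction c using OnePoint.rec with
    | infty => exact hG.trap.att _ (interior_subset hG.inf)
    | coe c => exact hcon c
  obtain ⟨R, hR⟩ : ∃ R : ℝ, R = max R0 1 := ⟨_, rfl⟩
  have hR1 : 1 ≤ R := by rw [hR]; exact le_max_right _ _
  have hRR : R0 ≤ R := by rw [hR]; exact le_max_left _ _
  obtain ⟨K1, hK1, hN1⟩ := Nd_scaled hG.degP
  obtain ⟨K2, hK2, hN2⟩ := Nd_scaled hG.degQ.le
  obtain ⟨E, hE⟩ : ∃ E : ℝ, E = Real.exp (R ^ 2) := ⟨_, rfl⟩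
  have hE0 : 0 < E := by rw [hE]; exact Real.exp_pos _
  obtain ⟨d, hdd, hAd⟩ := hA (η ^ 2 / (4 * E * (2 * (K1 + K2) + 4))) (by positivity) (max 2 (2 * n))
  have hd2 : 2 ≤ d := (le_max_left _ _).trans hdd
  have hdn : 2 * n ≤ d := (le_max_right _ _).trans hdd
  have hd1 : 1 ≤ d := by omega
  have hdR : (1 : ℝ) ≤ (d : ℝ) := by exact_mod_cast hd1
  have hdpos : (0 : ℝ) < d := by linarith
  obtain ⟨r, hr⟩ : ∃ r : ℝ, r = Real.sqrt d := ⟨_, rfl⟩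
  have hr1 : 1 ≤ r := by rw [hr]; exact Real.one_le_sqrt.2 hdR
  have hr2 : r ^ 2 = d := by rw [hr]; exact Real.sq_sqrt (by positivity)
  have hr0 : (r : ℂ) ≠ 0 := by rw [hr]; exact sq_ne hd1
  have hN1' : Nd d (Sc d T) ≤ K1 := hN1 d hd1 hdn
  have hN2' : Nd d (Sc d U) ≤ K2 := hN2 d hd1 hdn
  -- the perturbation
  obtain ⟨ε, hε⟩ : ∃ ε : ℝ, ε = min (1 / ((d + 1) * r ^ d)) (η / (2 * ((d + 1) * R ^ d))) := ⟨_, rfl⟩
  have hε0 : 0 < ε := by
    rw [hε]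
    exact lt_min (by positivity) (by positivity)
  have hε1 : ε * ((d + 1) * r ^ d) ≤ 1 := by
    have h1 : ε ≤ 1 / ((d + 1) * r ^ d) := by rw [hε]; exact min_le_left _ _
    rwa [le_div_iff₀ (by positivity)] at h1
  have hε2 : ε * (2 * ((d + 1) * R ^ d)) ≤ η := by
    have h1 : ε ≤ η / (2 * ((d + 1) * R ^ d)) := by rw [hε]; exact min_le_right _ _
    rwa [le_div_iff₀ (by positivity)] at h1
  obtain ⟨P2, Q2, hc2, hm2, hnear, hsk⟩ := sink_pert hn (by omega : n ≤ d) hcop hTU hs' hz hzinf hε0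
  have hP2 : P2.natDegree ≤ d := by rw [← hm2]; exact le_max_left _ _
  have hQ2 : Q2.natDegree ≤ d := by rw [← hm2]; exact le_max_right _ _
  have hTd : T.natDegree ≤ d := by have := hG.degP; omega
  have hUd : U.natDegree ≤ d := by have := hG.degQ; omega
  have eP : ∀ i : ℕ, ‖(P2 - T).coeff i‖ ≤ ε := fun i => by rw [coeff_sub]; exact (hnear i).1.le
  have eQ : ∀ i : ℕ, ‖(Q2 - U).coeff i‖ ≤ ε := fun i => by rw [coeff_sub]; exact (hnear i).2.le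
  have dP : (P2 - T).natDegree ≤ d := (natDegree_sub_le _ _).trans (max_le hP2 hTd)
  have dQ : (Q2 - U).natDegree ≤ d := (natDegree_sub_le _ _).trans (max_le hQ2 hUd)
  have hsm : ((d : ℝ) + 1) * (ε * r ^ d) ^ 2 ≤ 1 := by
    have h1 : ε * r ^ d ≤ 1 := by
      have h2 : ε * r ^ d * 1 ≤ ε * r ^ d * (d + 1) := mul_le_mul_of_nonneg_left (by linarith) (by positivity)
      linarith
    calc ((d : ℝ) + 1) * (ε * r ^ d) ^ 2 = ε * ((d + 1) * r ^ d) * (ε * r ^ d) := by ring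
      _ ≤ 1 * 1 := mul_le_mul hε1 h1 (by positivity) (by norm_num)
      _ = 1 := one_mul 1
  have bP : Nd d (Sc d P2) ≤ 2 * K1 + 2 := by
    have h1 := Nd_add d (Sc d T) (Sc d (P2 - T))
    have h2 := Nd_Sc_small hd1 dP eP
    rw [← hr] at h2
    rw [Sc_sub, add_sub_cancel] at h1
    rw [Sc_sub] at h2
    linarith
  have bQ : Nd d (Sc d Q2) ≤ 2 * K2 + 2 := by
    have h1 := Nd_add d (Sc d U) (Sc d (Q2 - U))
    have h2 := Nd_Sc_small hd1 dQ eQ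
    rw [← hr] at h2
    rw [Sc_sub, add_sub_cancel] at h1
    rw [Sc_sub] at h2
    linarith
  obtain ⟨P3, hP3⟩ : ∃ P3, P3 = C ((r : ℂ)⁻¹) * Sc d P2 := ⟨_, rfl⟩
  have bP3 : Nd d P3 ≤ 2 * K1 + 2 := by
    rw [hP3, em_mul, norm_inv, Complex.norm_real, Real.norm_of_nonneg (by linarith)]
    have h1 : (r⁻¹) ^ 2 ≤ 1 := by
      apply pow_le_one₀ (by positivity)
      exact inv_le_one_of_one_le₀ hr1
    have h2 := em_nn d (Sc d P2)
    nlinarith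
  have hsc : ∃ z m, IsSink (rat P3 (Sc d Q2)) z m := by
    rw [hP3, hr]
    exact Sc_sink hd1 hc2 hsk
  have hc3 : IsCoprime P3 (Sc d Q2) := by
    rw [hP3]
    exact unit_cop (inv_ne_zero hr0) (Sc_cop hc2 d)
  have hm3 : max P3.natDegree (Sc d Q2).natDegree = d := by
    rw [hP3, natDegree_C_mul (inv_ne_zero hr0), Sc_deg hd1, Sc_deg hd1]
    exact hm2
  obtain ⟨P', Q', g1, g2, g3, g4⟩ := hAd P3 (Sc d Q2) hc3 hm3 hsc
  have g5 : Nd d (P3 - P') + Nd d (Sc d Q2 - Q') ≤ η ^ 2 / (4 * E) / d := by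
    refine g4.trans ?_
    have h1 : η ^ 2 / (4 * E * (2 * (K1 + K2) + 4)) / d * (Nd d P3 + Nd d (Sc d Q2)) ≤
        η ^ 2 / (4 * E * (2 * (K1 + K2) + 4)) / d * (2 * (K1 + K2) + 4) :=
      mul_le_mul_of_nonneg_left (by linarith) (by positivity)
    refine h1.trans (le_of_eq ?_)
    field_simp
  have hP'd : P'.natDegree ≤ d := by rw [← g2]; exact le_max_left _ _
  have hQ'd : Q'.natDegree ≤ d := by rw [← g2]; exact le_max_right _ _
  have hP3d : P3.natDegree ≤ d := by rw [← hm3]; exact le_max_left _ _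
  have hQ3d : (Sc d Q2).natDegree ≤ d := by rw [Sc_deg hd1]; exact hQ2
  have n1 := em_nn d (P3 - P')
  have n2 := em_nn d (Sc d Q2 - Q')
  refine hno (C ((r : ℂ)) * Si d P') (Si d Q') (unit_cop hr0 (Si_cop g1 d)) ?_ (fun w hw => ?_)
    (by rw [hr]; exact Si_hyp hd1 g1 g3)
  · rw [natDegree_C_mul hr0, Si_deg hd1, Si_deg hd1, g2]
    exact hd2
  have hwR : ‖w‖ ≤ R := hw.trans hRR
  have e1 := Nd_eval_scaled hd1 ((natDegree_sub_le P3 P').trans (max_le hP3d hP'd)) hwR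
  have e2 := Nd_eval_scaled hd1 ((natDegree_sub_le (Sc d Q2) Q').trans (max_le hQ3d hQ'd)) hwR
  have hwE : w / ((Real.sqrt d : ℝ) : ℂ) = (r : ℂ)⁻¹ * w := by
    rw [← hr]
    field_simp
  rw [hwE, ← hE] at e1 e2
  have f1 : (C (r : ℂ) * Si d P').eval w - P2.eval w = -((r : ℂ) * (P3 - P').eval ((r : ℂ)⁻¹ * w)) := by
    rw [eval_mul, eval_C, Si_eval, ← hr, eval_sub, hP3, eval_mul, eval_C, Sc_eval, ← hr, mul_inv_cancel_left₀ hr0]
    field_simp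
    ring
  have f2 : (Si d Q').eval w - Q2.eval w = -((Sc d Q2 - Q').eval ((r : ℂ)⁻¹ * w)) := by
    rw [Si_eval, ← hr, eval_sub, Sc_eval, ← hr, mul_inv_cancel_left₀ hr0]
    ring
  have hkey : η ^ 2 / (4 * E) / d * E * d = (η / 2) ^ 2 := by
    field_simp
    ring
  have s1 : ‖(C (r : ℂ) * Si d P').eval w - P2.eval w‖ ≤ η / 2 := by
    rw [f1, norm_neg, norm_mul, Complex.norm_real, Real.norm_of_nonneg (by linarith)]
    refine (pow_le_pow_iff_left₀ (by positivity) (by linarith) two_ne_zero).1 ?_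
    rw [mul_pow, hr2]
    have h1 : Nd d (P3 - P') ≤ η ^ 2 / (4 * E) / d := by linarith
    calc (d : ℝ) * ‖(P3 - P').eval ((r : ℂ)⁻¹ * w)‖ ^ 2 ≤ d * (Nd d (P3 - P') * E) :=
          mul_le_mul_of_nonneg_left e1 hdpos.le
      _ ≤ d * (η ^ 2 / (4 * E) / d * E) := by gcongr
      _ = (η / 2) ^ 2 := by rw [← hkey]; ring
  have s2 : ‖(Si d Q').eval w - Q2.eval w‖ ≤ η / 2 := by
    rw [f2, norm_neg]
    refine (pow_le_pow_iff_left₀ (by positivity) (by linarith) two_ne_zero).1 ?_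
    have h1 : Nd d (Sc d Q2 - Q') ≤ η ^ 2 / (4 * E) / d := by linarith
    calc ‖(Sc d Q2 - Q').eval ((r : ℂ)⁻¹ * w)‖ ^ 2 ≤ Nd d (Sc d Q2 - Q') * E := e2
      _ ≤ η ^ 2 / (4 * E) / d * E := by gcongr
      _ ≤ η ^ 2 / (4 * E) / d * E * d := by
          apply le_mul_of_one_le_right (by positivity) hdR
      _ = (η / 2) ^ 2 := hkey
  have t1 : ‖P2.eval w - T.eval w‖ ≤ η / 2 := by
    rw [← eval_sub]
    refine (eval_small dP eP hR1 hwR).trans ?_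
    have : ((d : ℝ) + 1) * (ε * R ^ d) = ε * (2 * ((d + 1) * R ^ d)) / 2 := by ring
    rw [this]
    linarith
  have t2 : ‖Q2.eval w - U.eval w‖ ≤ η / 2 := by
    rw [← eval_sub]
    refine (eval_small dQ eQ hR1 hwR).trans ?_
    have : ((d : ℝ) + 1) * (ε * R ^ d) = ε * (2 * ((d + 1) * R ^ d)) / 2 := by ring
    rw [this]
    linarith
  constructor
  · have h1 := norm_add_le ((C (r : ℂ) * Si d P').eval w - P2.eval w) (P2.eval w - T.eval w)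
    rw [sub_add_sub_cancel] at h1
    linarith
  · have h1 := norm_add_le ((Si d Q').eval w - Q2.eval w) (Q2.eval w - U.eval w)
    rw [sub_add_sub_cancel] at h1
    linarith

/-- Fatou's conjecture for the maps of degree `d` with an attracting cycle gives every error in degree `d` -/
theorem sink_of_fatou {d : ℕ} (hF : ∀ P Q : ℂ[X], IsCoprime P Q → max P.natDegree Q.natDegree = d →
    (∃ z m, IsSink (rat P Q) z m) → Lim d P Q) {κ : ℝ} (hκ : 0 < κ) (hd : 2 ≤ d) : SinkApp d κ := by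
  intro P Q h hm hs
  have hP : P.natDegree ≤ d := by rw [← hm]; exact le_max_left _ _
  have hQ : Q.natDegree ≤ d := by rw [← hm]; exact le_max_right _ _
  have hQ0 : Q ≠ 0 := den_ne_zero h (by omega)
  have hN : 0 < Nd d P + Nd d Q := by
    have e1 := em_nn d P
    have e2 := Pool.H91.SR.Nd_pos d hQ hQ0
    linarith
  obtain ⟨δ, hδ⟩ : ∃ δ : ℝ, δ = min 1 (κ * (Nd d P + Nd d Q) / (2 * (d + 1))) := ⟨_, rfl⟩
  have hδ0 : 0 < δ := by
    rw [hδ]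
    exact lt_min one_pos (by positivity)
  have hδ1 : δ ≤ 1 := by rw [hδ]; exact min_le_left _ _
  have hδ2 : δ * (2 * (d + 1)) ≤ κ * (Nd d P + Nd d Q) := by
    have h1 : δ ≤ κ * (Nd d P + Nd d Q) / (2 * (d + 1)) := by rw [hδ]; exact min_le_right _ _
    rwa [le_div_iff₀ (by positivity)] at h1
  obtain ⟨P', Q', k1, k2, k3, k4⟩ := hF P Q h hm hs δ hδ0
  refine ⟨P', Q', k1, k2, k4, ?_⟩
  have h1 : Nd d (P - P') ≤ (d + 1) * δ ^ 2 := Nd_small fun i => by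
    rw [coeff_sub, norm_sub_rev]
    exact (k3 i).1.le
  have h2 : Nd d (Q - Q') ≤ (d + 1) * δ ^ 2 := Nd_small fun i => by
    rw [coeff_sub, norm_sub_rev]
    exact (k3 i).2.le
  have h3 : ((d : ℝ) + 1) * δ ^ 2 ≤ (d + 1) * δ := by
    have h4 : δ ^ 2 ≤ δ := by nlinarith
    exact mul_le_mul_of_nonneg_left h4 (by positivity)
  linarith

/-- Fatou's conjecture for rational maps with an attracting cycle holds if and only if `liminf d D_sink(d) = 0` -/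
theorem sink_equiv : (∀ (n : ℕ) (P Q : ℂ[X]), 2 ≤ n → IsCoprime P Q → max P.natDegree Q.natDegree = n →
      (∃ z m, IsSink (rat P Q) z m) → Lim n P Q) ↔
    ∀ c : ℝ, 0 < c → ∀ d0 : ℕ, ∃ d : ℕ, d0 ≤ d ∧ SinkApp d (c / d) := by
  constructor
  · intro hF c hc d0
    have h : 2 ≤ max d0 2 := le_max_right _ _
    have h1 : (0 : ℝ) < (max d0 2 : ℕ) := by exact_mod_cast (by omega : 0 < max d0 2)
    exact ⟨max d0 2, le_max_left _ _, sink_of_fatou (fun P Q h1 h2 h3 => hF _ P Q h h1 h2 h3) (by positivity) h⟩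
  · intro hA n P Q hn h hd hs
    exact fatou_of_sink hA hn h hd hs

end Pool.Agent.H84.PT
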