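import Pool.Agent.H85.LD.ADefs
import Pool.Agent.H32.BT.Defs
import Pool.Agent.H44.Fatou.Basic

/-!
PolynomialThreshold (MP_8f2e1c_an): definitions.
-/

set_option autoImplicit false

open Filter Topology Polynomial Set

namespace Pool.Agent.H84.PT

open Pool.Agent.H44.Fatou Pool.Agent.H32.BT
open Pool.Agent.H85.LD (Nd)

/-- the orbit of `c` under the polynomial `P` tends to infinity -/
def Esc (P : ℂ[X]) (c : ℂ) : Prop := Tendsto (fun k : ℕ => ‖(fun z : ℂ => P.eval z)^[k] c‖) atTop atTop

/-- all critical points of `P` escape to infinity -/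
def Shift (P : ℂ[X]) : Prop := ∀ c : ℂ, P.derivative.eval c = 0 → Esc P c

/-- every polynomial of degree at most `d` is within relative squared Bombieri-Weyl error `κ` of a hyperbolic polynomial
of degree exactly `d` -/
def PolApp (d : ℕ) (κ : ℝ) : Prop := ∀ P : ℂ[X], P.natDegree ≤ d →
  ∃ P' : ℂ[X], P'.natDegree = d ∧ HypMap (rat P' 1) ∧ Nd d (P - P') ≤ κ * (1 + Nd d P)

/-- the same with a polynomial of degree `d` all whose critical points escape -/
def ShiftApp (d : ℕ) (κ : ℝ) : Prop := ∀ P : ℂ[X], P.natDegree ≤ d →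
  ∃ P' : ℂ[X], P'.natDegree = d ∧ Shift P' ∧ Nd d (P - P') ≤ κ * (1 + Nd d P)

end Pool.Agent.H84.PT
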