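import Pool.Agent.H84.PT.Eqv

/-!
PolynomialThreshold (MP_8f2e1c_an), part (2): the shift locus is not closer than `c / d`.
-/

set_option autoImplicit false

open Filter Topology Polynomial Set

namespace Pool.Agent.H84.PT

open Pool.Agent.H44.Fatou Pool.Agent.H32.BT Pool.Agent.H84.BR
open Pool.Agent.H85.LD (Nd)

/-- a polynomial close to `z^2` on `|z| ≤ 1/2` has a critical point in `|z| ≤ 1/4` -/
theorem near_crit {A : ℂ[X]} (h : ∀ w : ℂ, ‖w‖ ≤ 1 / 2 → ‖A.eval w - w ^ 2‖ ≤ 1 / 32) :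
    ∃ c : ℂ, ‖c‖ ≤ 1 / 4 ∧ A.derivative.eval c = 0 := by
  by_contra hcon
  push Not at hcon
  have hder : ∀ w : ℂ, ‖w‖ ≤ 1 / 4 → ‖A.derivative.eval w - 2 * w‖ ≤ 1 / 8 := by
    intro w hw
    have h1 : deriv (fun z : ℂ => A.eval z - z ^ 2) w = A.derivative.eval w - 2 * w := by
      have h2 : HasDerivAt (fun z : ℂ => A.eval z - z ^ 2) (A.derivative.eval w - 2 * w) w := by
        have h3 := (A.hasDerivAt w).sub (hasDerivAt_pow 2 w)
        have h4 : ((2 : ℕ) : ℂ) * w ^ (2 - 1) = 2 * w := by norm_num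
        rw [h4] at h3
        exact h3
      exact h2.deriv
    rw [← h1]
    have h4 : ‖deriv (fun z : ℂ => A.eval z - z ^ 2) w‖ ≤ (1 / 32) / (1 / 4) := by
      refine Complex.norm_deriv_le_of_forall_mem_sphere_norm_le (by norm_num) ?_ fun z hz => ?_
      · exact (A.differentiable.sub (differentiable_pow 2)).diffContOnCl
      · apply h
        have h5 : ‖z - w‖ = 1 / 4 := mem_sphere_iff_norm.1 hz
        have h6 : ‖z‖ ≤ ‖z - w‖ + ‖w‖ := by
          have := norm_add_le (z - w) w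
          rwa [sub_add_cancel] at this
        linarith
    refine h4.trans (by norm_num)
  have hD : DiffContOnCl ℂ (fun z : ℂ => (A.derivative.eval z)⁻¹) (Metric.ball 0 (1 / 4)) := by
    have h1 : DiffContOnCl ℂ (fun z : ℂ => A.derivative.eval z) (Metric.ball 0 (1 / 4)) :=
      A.derivative.differentiable.diffContOnCl
    refine h1.inv fun z hz => hcon z ?_
    have h2 := Metric.closure_ball_subset_closedBall hz
    rwa [mem_closedBall_zero_iff] at h2
  have hb : ∀ z ∈ frontier (Metric.ball (0 : ℂ) (1 / 4)), ‖(A.derivative.eval z)⁻¹‖ ≤ 8 / 3 := by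
    intro z hz
    have h1 : z ∈ Metric.sphere (0 : ℂ) (1 / 4) := Metric.frontier_ball_subset_sphere hz
    rw [mem_sphere_zero_iff_norm] at h1
    have h2 := hder z h1.le
    have h3 : ‖2 * z‖ = 1 / 2 := by
      rw [norm_mul, h1]
      norm_num
    have h4 : ‖2 * z‖ ≤ ‖A.derivative.eval z‖ + ‖A.derivative.eval z - 2 * z‖ := by
      have := norm_sub_le (A.derivative.eval z) (A.derivative.eval z - 2 * z)
      rwa [sub_sub_cancel] at this
    rw [norm_inv, inv_le_comm₀ (by linarith) (by norm_num)]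
    linarith
  have h0 := Complex.norm_le_of_forall_mem_frontier_norm_le Metric.isBounded_ball hD hb
    (subset_closure (Metric.mem_ball_self (by norm_num : (0 : ℝ) < 1 / 4)))
  have h1 := hder 0 (by rw [norm_zero]; norm_num)
  rw [mul_zero, sub_zero] at h1
  have h2 : 0 < ‖A.derivative.eval 0‖ := norm_pos_iff.2 (hcon 0 (by rw [norm_zero]; norm_num))
  rw [norm_inv, inv_le_comm₀ h2 (by norm_num)] at h0
  linarith

/-- a polynomial close to `z^2` on `|z| ≤ 1/2` is not in the shift locus -/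
theorem near_not_shift {A : ℂ[X]} (h : ∀ w : ℂ, ‖w‖ ≤ 1 / 2 → ‖A.eval w - w ^ 2‖ ≤ 1 / 32) : ¬ Shift A := by
  intro hs
  obtain ⟨c, hc, hc0⟩ := near_crit h
  have h1 : ∀ k : ℕ, ‖(fun z : ℂ => A.eval z)^[k] c‖ ≤ 1 / 2 := by
    intro k
    induction k with
    | zero =>
      rw [Function.iterate_zero, id]
      linarith
    | succ k ih =>
      rw [Function.iterate_succ_apply']
      obtain ⟨w, hw⟩ : ∃ w, w = (fun z : ℂ => A.eval z)^[k] c := ⟨_, rfl⟩
      rw [← hw] at ih ⊢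
      have h2 := h w ih
      have h3 : ‖A.eval w‖ ≤ ‖A.eval w - w ^ 2‖ + ‖w ^ 2‖ := by
        have := norm_add_le (A.eval w - w ^ 2) (w ^ 2)
        rwa [sub_add_cancel] at this
      rw [norm_pow] at h3
      have h4 : ‖w‖ ^ 2 ≤ (1 / 2) ^ 2 := by
        have := norm_nonneg w
        gcongr
      show ‖A.eval w‖ ≤ 1 / 2
      linarith
  have h2 := (hs c hc0).eventually_gt_atTop (1 / 2)
  obtain ⟨k, hk⟩ := h2.exists
  exact absurd (h1 k) (not_le.2 hk)

/-- the shift property is invariant under the scaling -/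
theorem Rs_shift {d : ℕ} (hd : 1 ≤ d) {P' : ℂ[X]} (h : Shift P') : Shift (Rs d P') := by
  obtain ⟨r, hr⟩ : ∃ r : ℂ, r = ((Real.sqrt d : ℝ) : ℂ) := ⟨_, rfl⟩
  have hr0 : r ≠ 0 := by
    rw [hr, Ne, Complex.ofReal_eq_zero, Real.sqrt_eq_zero (by positivity)]
    exact_mod_cast (by omega : d ≠ 0)
  have hev : ∀ w : ℂ, (Rs d P').eval w = r * P'.eval (r⁻¹ * w) := by
    intro w
    rw [Rs_eval, hr]
  have hit : ∀ (k : ℕ) (w : ℂ), (fun z : ℂ => (Rs d P').eval z)^[k] w = r * (fun z : ℂ => P'.eval z)^[k] (r⁻¹ * w) := by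
    intro k
    induction k with
    | zero =>
      intro w
      rw [Function.iterate_zero, Function.iterate_zero, id, id, mul_inv_cancel_left₀ hr0]
    | succ k ih =>
      intro w
      rw [Function.iterate_succ_apply', Function.iterate_succ_apply', ih, hev, inv_mul_cancel_left₀ hr0]
  intro c hc
  have hd1 : (Rs d P').derivative.eval c = P'.derivative.eval (r⁻¹ * c) := by
    unfold Rs
    rw [← hr, derivative_C_mul, derivative_comp, derivative_C_mul, derivative_X, mul_one, eval_mul, eval_C, eval_mul,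
      eval_C, eval_comp, eval_mul, eval_C, eval_X, mul_inv_cancel_left₀ hr0]
  rw [hd1] at hc
  have h1 := h _ hc
  unfold Esc at h1 ⊢
  have h2 : (fun k : ℕ => ‖(fun z : ℂ => (Rs d P').eval z)^[k] c‖) =
      fun k : ℕ => ‖r‖ * ‖(fun z : ℂ => P'.eval z)^[k] (r⁻¹ * c)‖ := by
    funext k
    rw [hit, norm_mul]
  rw [h2]
  exact h1.const_mul_atTop (norm_pos_iff.2 hr0)

/-- the shift locus of degree `d` is not closer than `c / d` -/
theorem shift_low : ∃ c : ℝ, 0 < c ∧ ∃ d0 : ℕ, ∀ d : ℕ, d0 ≤ d → ¬ ShiftApp d (c / d) := by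
  obtain ⟨c, hc, d0, H⟩ := scl (n := 2) (T := X ^ 2) (natDegree_X_pow_le 2) (η := 1 / 32) (by norm_num) (1 / 2)
  refine ⟨c, hc, max d0 1, fun d hd hS => ?_⟩
  obtain ⟨P, h1, h2⟩ := H d (le_of_max_le_left hd)
  obtain ⟨P', k1, k2, k3⟩ := hS P h1
  refine near_not_shift (A := Rs d P') (fun w hw => ?_) (Rs_shift (le_of_max_le_right hd) k2)
  have h3 := h2 P' k1 k3 w hw
  rwa [eval_pow, eval_X] at h3

end Pool.Agent.H84.PT
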