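import Pool.Agent.H84.PT.Pow

set_option autoImplicit false

namespace Pool.Agent.H84.PT

open Finset

theorem pow2 (k : ℕ) (hk : 6 ≤ k) : ∃ L : Fin (2 ^ k) → Equiv.Perm (Fin (2 ^ k)),
    (∀ j, Function.Injective (fun i => L i j)) ∧
    (∀ i, (∃! x, L i x = x) ∧ ∀ x y, L i x ≠ x → L i y ≠ y → ∃ n : ℕ, ((L i) ^ n) x = y) ∧
    (¬ ∃ (G : Type) (_ : Group G) (r c s : Fin (2 ^ k) ≃ G), ∀ i j, s (L i j) = r i * c j) ∧
    (∀ j, Function.Injective (fun i => (L i * L i) j)) := by
  classical
  have : Fact (Nat.Prime 2) := ⟨Nat.prime_two⟩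
  have hum : k ≠ 0 := by omega
  let F := GaloisField 2 k
  letI : Fintype F := Fintype.ofFinite F
  have hcard : Fintype.card F = 2 ^ k := by
    rw [← Nat.card_eq_fintype_card]
    exact GaloisField.card 2 k hum
  have h64 : 64 ≤ Fintype.card F := by
    rw [hcard]
    calc 64 = 2 ^ 6 := by norm_num
      _ ≤ 2 ^ k := Nat.pow_le_pow_right (by norm_num) hk
  have two : (2 : F) = 0 := CharTwo.two_eq_zero
  obtain ⟨g, hg⟩ := IsCyclic.exists_generator (α := Fˣ)
  have hgen : ∀ x : F, x ≠ 0 → ∃ n : ℕ, (g : F) ^ n = x := by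
    intro x hx
    have h1 := mem_powers_iff_mem_zpowers.2 (hg (Units.mk0 x hx))
    obtain ⟨n, hn⟩ := h1
    refine ⟨n, ?_⟩
    have hn' : g ^ n = Units.mk0 x hx := hn
    rw [← Units.val_pow_eq_pow_val, hn', Units.val_mk0]
  have ha : (g : F) ≠ 0 := g.ne_zero
  have ha1 : 1 + (g : F) ≠ 0 := by
    intro h
    have h1 : (g : F) = 1 := by linear_combination h - two
    obtain ⟨x, hx⟩ : ∃ x : F, x ∉ ({0, 1} : Finset F) := by
      by_contra hcon
      push Not at hcon
      have h2 : (univ : Finset F) ⊆ {0, 1} := fun x _ => hcon x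
      have h3 := card_le_card h2
      rw [card_univ] at h3
      have h4 : ({0, 1} : Finset F).card ≤ 2 := card_le_two
      omega
    rw [mem_insert, mem_singleton] at hx
    push Not at hx
    obtain ⟨n, hn⟩ := hgen x hx.1
    rw [h1, one_pow] at hn
    exact hx.2 hn.symm
  let a : F := g
  let ε : F ≃ Fin (2 ^ k) := Fintype.equivFinOfCardEq hcard
  let P : Equiv.Perm F := Equiv.ofBijective (ff a) (Finite.injective_iff_bijective.1 (ff_inj a ha))
  have hP : ∀ x, P x = ff a x := fun x => rfl
  have hPk : ∀ (n : ℕ) (x : F), (P ^ n) x = (ff a)^[n] x := by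
    intro n
    induction n with
    | zero => intro x; rfl
    | succ n ih =>
      intro x
      rw [pow_succ, Equiv.Perm.mul_apply, ih, Function.iterate_succ_apply, hP]
  let row : F → Equiv.Perm F := fun i => (Equiv.subRight i).trans (P.trans (Equiv.addLeft i))
  let L : Fin (2 ^ k) → Equiv.Perm (Fin (2 ^ k)) :=
    fun i => (ε.symm.trans (row (ε.symm i))).trans ε
  have hL : ∀ i x, L i x = ε (ε.symm i + ff a (ε.symm x - ε.symm i)) := fun i x => rfl
  have hpow : ∀ (i : Fin (2 ^ k)) (l : ℕ) (x : Fin (2 ^ k)),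
      ((L i) ^ l) x = ε (ε.symm i + (P ^ l) (ε.symm x - ε.symm i)) := by
    intro i l
    induction l with
    | zero => intro x; simp
    | succ n ih =>
      intro x
      rw [pow_succ, Equiv.Perm.mul_apply, ih, hL, Equiv.symm_apply_apply, pow_succ, Equiv.Perm.mul_apply, hP,
        add_sub_cancel_left]
  refine ⟨L, ?_, ?_, ?_, ?_⟩
  · intro j i i' hij
    have h1 : L i j = L i' j := hij
    rw [hL, hL] at h1
    have h3 := ε.injective h1
    have h4 : ff a (ε.symm j - ε.symm i) + (ε.symm j - ε.symm i) =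
        ff a (ε.symm j - ε.symm i') + (ε.symm j - ε.symm i') := by
      linear_combination h3 - (ε.symm i - ε.symm i') * two
    have h5 := add_inj a ha1 h4
    exact ε.symm.injective (sub_right_injective h5)
  · intro i
    have fix : ∀ x, L i x = x ↔ th (Sp a) (a ^ 3 + a) (ε.symm x - ε.symm i) = 0 := by
      intro x
      rw [hL]
      have h1 : ε (ε.symm i + ff a (ε.symm x - ε.symm i)) = x ↔ ff a (ε.symm x - ε.symm i) = ε.symm x - ε.symm i := by
        constructor
        · intro hx
          have h2 : ε.symm i + ff a (ε.symm x - ε.symm i) = ε.symm x := by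
            apply ε.injective; rw [hx, Equiv.apply_symm_apply]
          linear_combination h2
        · intro hx
          rw [hx, add_sub_cancel, Equiv.apply_symm_apply]
      rw [h1]
      constructor
      · intro hx
        unfold ff at hx
        have h2 : a * th (Sp a) (a ^ 3 + a) (ε.symm x - ε.symm i) = th (Sp a) (a ^ 3 + a) (ε.symm x - ε.symm i) := by
          apply th_inj a
          rw [hx, th_th]
        have h3 : (1 + a) * th (Sp a) (a ^ 3 + a) (ε.symm x - ε.symm i) = 0 := by
          linear_combination h2 + th (Sp a) (a ^ 3 + a) (ε.symm x - ε.symm i) * two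
        exact (mul_eq_zero.1 h3).resolve_left ha1
      · intro hx
        unfold ff
        rw [hx, mul_zero]
        rw [← hx, th_th]
    refine ⟨⟨ε (ε.symm i + th (Sp a) (a ^ 3 + a) 0), ?_, ?_⟩, ?_⟩
    · show L i _ = _
      rw [fix, Equiv.symm_apply_apply, add_sub_cancel_left, th_th]
    · intro y hy
      have h1 := (fix y).1 hy
      have h2 : ε.symm y - ε.symm i = th (Sp a) (a ^ 3 + a) 0 := by rw [← h1, th_th]
      rw [← h2, add_sub_cancel, Equiv.apply_symm_apply]
    · intro x y hx hy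
      have hx' : th (Sp a) (a ^ 3 + a) (ε.symm x - ε.symm i) ≠ 0 := fun h0 => hx ((fix x).2 h0)
      have hy' : th (Sp a) (a ^ 3 + a) (ε.symm y - ε.symm i) ≠ 0 := fun h0 => hy ((fix y).2 h0)
      obtain ⟨n, hn⟩ := hgen (th (Sp a) (a ^ 3 + a) (ε.symm y - ε.symm i) / th (Sp a) (a ^ 3 + a) (ε.symm x - ε.symm i))
        (div_ne_zero hy' hx')
      refine ⟨n, ?_⟩
      rw [hpow, hPk, ff_iter]
      have h1 : a ^ n * th (Sp a) (a ^ 3 + a) (ε.symm x - ε.symm i) = th (Sp a) (a ^ 3 + a) (ε.symm y - ε.symm i) := by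
        rw [show a ^ n = _ from hn, div_mul_cancel₀ _ hx']
      rw [h1, th_th, add_sub_cancel, Equiv.apply_symm_apply]
  · rintro ⟨G, hG, r, c', s, H⟩
    obtain ⟨S, hS1, hS2⟩ := ff_off a ha
    refine not_group a ha (ff a) S (by omega) hS2 0 (ff_zero a ha ha1) G (ε.trans r) (ε.trans c') (ε.trans s) fun i j => ?_
    have h1 := H (ε i) (ε j)
    rw [hL, Equiv.symm_apply_apply, Equiv.symm_apply_apply] at h1
    exact h1
  · intro j i i' hij
    have h1 : ((L i) ^ 2) j = ((L i') ^ 2) j := by
      rw [pow_two, pow_two]; exact hij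
    rw [hpow, hpow] at h1
    have h3 := ε.injective h1
    rw [hPk, hPk] at h3
    have h4 : ff a (ff a (ε.symm j - ε.symm i)) + (ε.symm j - ε.symm i) =
        ff a (ff a (ε.symm j - ε.symm i')) + (ε.symm j - ε.symm i') := by
      have h6 : ∀ x, (ff a)^[2] x = ff a (ff a x) := fun x => rfl
      rw [h6, h6] at h3
      linear_combination h3 - (ε.symm i - ε.symm i') * two
    have h5 := add_inj2 a ha1 h4
    exact ε.symm.injective (sub_right_injective h5)

end Pool.Agent.H84.PT
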