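import Pool.Agent.H84.BR.Chr

/-!
PolynomialThreshold (MP_8f2e1c_an), part (4): good coordinates with infinity off the cycle of the sink (copy of `good_chart` of BR/Chr.lean).
-/

set_option autoImplicit false

open Filter Topology Polynomial OnePoint Set

namespace Pool.Agent.H84.PT

open Pool.Agent.H44.Fatou Pool.Agent.H32.BT Pool.Agent.H84.BR

/-- the finite points of the cycle of a sink -/
theorem finite_cyc {f : OnePoint ℂ → OnePoint ℂ} {z : OnePoint ℂ} {m : ℕ} (hs : IsSink f z m) :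
    {s : ℂ | ∃ j : ℕ, f^[j] z = (s : OnePoint ℂ)}.Finite := by
  have h1 : {s : ℂ | ∃ j : ℕ, f^[j] z = (s : OnePoint ℂ)} ⊆
      ((↑) : ℂ → OnePoint ℂ) ⁻¹' ((fun j : ℕ => f^[j] z) '' (Finset.range m : Set ℕ)) := by
    rintro s ⟨j, hj⟩
    refine ⟨j % m, Finset.mem_coe.2 (Finset.mem_range.2 (Nat.mod_lt _ hs.1)), ?_⟩
    show f^[j % m] z = (s : OnePoint ℂ)
    rw [← hj]
    have h2 : Function.IsPeriodicPt f m z := hs.2.1
    exact h2.iterate_mod_apply j
  refine Set.Finite.subset (Set.Finite.preimage OnePoint.coe_injective.injOn ?_) h1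
  exact (Finset.finite_toSet _).image _

/-- good coordinates for which infinity is not in the cycle of the sink -/
theorem good_chart2 {n : ℕ} (hn : 2 ≤ n) {P Q : ℂ[X]} (h : IsCoprime P Q) (hd : max P.natDegree Q.natDegree = n)
    {z : OnePoint ℂ} {m : ℕ} (hs : IsSink (rat P Q) z m) :
    ∃ (s : ℂ) (A : Set (OnePoint ℂ)), GD n (cj1 s n P Q) (cj2 s n P Q) A ∧
      ∃ z' : OnePoint ℂ, IsSink (rat (cj1 s n P Q) (cj2 s n P Q)) z' m ∧
        ∀ j : ℕ, (rat (cj1 s n P Q) (cj2 s n P Q))^[j] z' ≠ ∞ := by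
  classical
  obtain ⟨A0, hA0, hz⟩ := trap_of_sink h (by omega) hs
  obtain ⟨F, hF⟩ := gen_s hn h hd
  have hP : P.natDegree ≤ n := by rw [← hd]; exact le_max_left _ _
  have hQ : Q.natDegree ≤ n := by rw [← hd]; exact le_max_right _ _
  obtain ⟨c, hc⟩ : ∃ c : ℂ, (c : OnePoint ℂ) ∈ interior A0 := by
    have h1 : (interior A0 ∩ Set.range ((↑) : ℂ → OnePoint ℂ)).Nonempty :=
      (OnePoint.denseRange_coe (X := ℂ)).inter_open_nonempty _ isOpen_interior ⟨z, hz⟩
    obtain ⟨_, hx, c, rfl⟩ := h1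
    exact ⟨c, hx⟩
  have hopen : IsOpen {c : ℂ | (c : OnePoint ℂ) ∈ interior A0} :=
    isOpen_interior.preimage OnePoint.continuous_coe
  have hinf : {c : ℂ | (c : OnePoint ℂ) ∈ interior A0}.Infinite :=
    infinite_of_mem_nhds c (hopen.mem_nhds hc)
  obtain ⟨s, hs1, hs2'⟩ := hinf.exists_notMem_finset (F ∪ ((finite_cyc hs).toFinset))
  rw [Finset.mem_union, not_or, Set.Finite.mem_toFinset] at hs2'
  obtain ⟨hs2, hs3⟩ := hs2'
  obtain ⟨g1, g2, g3⟩ := hF s hs2
  obtain ⟨φ, -, hφs, -, hφ⟩ := exists_mob s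
  obtain ⟨k1, k2, k3⟩ := hφ n P Q h hd (by omega)
  have hinfA : (∞ : OnePoint ℂ) ∈ interior (φ '' A0) := by
    rw [← φ.image_interior, ← hφs]
    exact ⟨_, hs1, rfl⟩
  have hT := trap_conj φ k3 hA0
  obtain ⟨t1, t2, t3⟩ := trap_pre (rat_continuous k1) hT
  refine ⟨s, (rat (cj1 s n P Q) (cj2 s n P Q)) ⁻¹' (φ '' A0), ⟨hn, k1, ?_, ?_, ?_, t1, ?_, ?_⟩, φ z,
    (isSink_conj φ k3 z m).2 hs, ?_⟩
  · refine le_antisymm (natDegree_reflect_le' (mob_deg1 s (mob_deg2 s hP hQ))) (le_natDegree_of_ne_zero ?_)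
    rw [mob_cj2_coeff]
    exact g2
  · exact natDegree_reflect_le' (mob_deg1 s hQ)
  · intro b hb hb'
    by_cases hb0 : b = 0
    · apply g1
      rw [hb0] at hb
      unfold cj2 at hb
      rw [eval_reflect_zero, mob_coeff_comp s (mob_deg2 s hP hQ), coeff_sub, coeff_C_mul] at hb
      exact hb
    · have hne : s + b⁻¹ ≠ s := by
        intro h3
        apply hb0
        simpa using h3
      have e2 := mob_eval2 s hP hQ hne
      rw [add_sub_cancel_left, inv_inv, hb, zero_mul] at e2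
      refine g3 (s + b⁻¹) (sub_eq_zero.1 e2) ?_
      have d1 : HasDerivAt (fun z : ℂ => P.eval z - s * Q.eval z)
          ((derivative P).eval (s + b⁻¹) - s * (derivative Q).eval (s + b⁻¹)) (s + b⁻¹) :=
        (P.hasDerivAt _).sub ((Q.hasDerivAt _).const_mul s)
      have d2 : HasDerivAt (fun z : ℂ => (cj2 s n P Q).eval (z - s)⁻¹ * (z - s) ^ n) 0 (s + b⁻¹) := by
        have d3 : HasDerivAt (fun z : ℂ => z - s) 1 (s + b⁻¹) := (hasDerivAt_id _).sub_const s
        have hs0 : s + b⁻¹ - s ≠ 0 := sub_ne_zero.2 hne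
        have d4 := d3.inv hs0
        have d5 := ((cj2 s n P Q).hasDerivAt ((s + b⁻¹ - s)⁻¹)).comp (s + b⁻¹) d4
        have d6 := d5.mul (d3.pow n)
        have hbb : (s + b⁻¹ - s)⁻¹ = b := by rw [add_sub_cancel_left, inv_inv]
        refine d6.congr_deriv ?_
        simp only [Function.comp_apply, Pi.inv_apply, hbb, hb, hb', zero_mul, add_zero]
      have d7 : (fun z : ℂ => P.eval z - s * Q.eval z) =ᶠ[𝓝 (s + b⁻¹)]
          (fun z : ℂ => (cj2 s n P Q).eval (z - s)⁻¹ * (z - s) ^ n) := by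
        have d8 : ∀ᶠ z in 𝓝 (s + b⁻¹), z ≠ s := isOpen_ne.mem_nhds hne
        exact d8.mono fun z hz => mob_eval2 s hP hQ hz
      exact sub_eq_zero.1 (d1.unique (d2.congr_of_eventuallyEq d7))
  · exact t2 (interior_subset hinfA)
  · intro b hb
    apply t3
    show rat (cj1 s n P Q) (cj2 s n P Q) (b : OnePoint ℂ) ∈ interior (φ '' A0)
    rw [rat_coe, hb]
    unfold pt
    rw [if_pos rfl]
    exact hinfA
  · intro j hj
    rw [iter_conj φ k3, ← hφs] at hj
    exact hs3 ⟨j, φ.injective hj⟩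

end Pool.Agent.H84.PT
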