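import Mathlib

set_option autoImplicit false

namespace Pool.Agent.H84.PT

open Finset

theorem exists_shift {F : Type} [Field F] [Fintype F] [DecidableEq F] (S : Finset F) (hS : 4 * S.card < Fintype.card F)
    (a b c d : F) : ∃ t, a + t ∉ S ∧ b + t ∉ S ∧ c + t ∉ S ∧ d + t ∉ S := by
  by_contra h
  push Not at h
  have h1 : (univ : Finset F) ⊆ ((S.image fun x => x - a) ∪ (S.image fun x => x - b)) ∪
      ((S.image fun x => x - c) ∪ (S.image fun x => x - d)) := by
    intro t _
    simp only [mem_union, mem_image]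
    by_cases h1 : a + t ∈ S
    · exact Or.inl (Or.inl ⟨a + t, h1, by ring⟩)
    by_cases h2 : b + t ∈ S
    · exact Or.inl (Or.inr ⟨b + t, h2, by ring⟩)
    by_cases h3 : c + t ∈ S
    · exact Or.inr (Or.inl ⟨c + t, h3, by ring⟩)
    exact Or.inr (Or.inr ⟨d + t, h t h1 h2 h3, by ring⟩)
  have h2 := card_le_card h1
  rw [card_univ] at h2
  have h3 := card_union_le ((S.image fun x => x - a) ∪ (S.image fun x => x - b)) ((S.image fun x => x - c) ∪ (S.image fun x => x - d))
  have h4 := card_union_le (S.image fun x => x - a) (S.image fun x => x - b)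
  have h5 := card_union_le (S.image fun x => x - c) (S.image fun x => x - d)
  have h6 : ∀ e : F, (S.image fun x => x - e).card ≤ S.card := fun e => card_image_le
  have := h6 a
  have := h6 b
  have := h6 c
  have := h6 d
  omega

theorem not_group {F : Type} [Field F] [Fintype F] [CharP F 2] (a : F) (ha : a ≠ 0) (f : F → F) (S : Finset F)
    (hS : 4 * S.card < Fintype.card F) (hf : ∀ x, x ∉ S → f x = a * x) (x0 : F) (h0 : f x0 ≠ a * x0)
    (G : Type) [Group G] (r c s : F ≃ G) (H : ∀ i j, s (i + f (j - i)) = r i * c j) : False := by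
  classical
  have two : (2 : F) = 0 := CharTwo.two_eq_zero
  obtain ⟨y1, hy1, -, -, -⟩ := exists_shift S hS 0 0 0 0
  rw [zero_add] at hy1
  obtain ⟨y2, hy2, hy3, -, -⟩ := exists_shift S hS 0 (y1 + x0) 0 0
  rw [zero_add] at hy2
  obtain ⟨t, ht1, ht2, ht3, ht4⟩ := exists_shift S hS x0 y1 y2 (y1 + x0 + y2)
  -- rows 0, u = x0 + y2; columns x0, y1
  have q : ∀ i j i' j' : F, s (i + f (j - i)) = s (i + f (j' - i)) * (s (i' + f (j' - i')))⁻¹ * s (i' + f (j - i')) := by
    intro i j i' j'
    rw [H, H, H, H]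
    group
  have k1 := q 0 x0 (x0 + y2) y1
  have k2 := q (a * t) (x0 + (1 + a) * t) (x0 + y2 + a * t) (y1 + (1 + a) * t)
  have e1 : (0 : F) + f (y1 - 0) = a * y1 := by rw [sub_zero, zero_add, hf _ hy1]
  have e2 : (x0 + y2) + f (y1 - (x0 + y2)) = (x0 + y2) + a * (y1 + x0 + y2) := by
    have : y1 - (x0 + y2) = y1 + x0 + y2 := by linear_combination (-(x0 + y2)) * two
    rw [this, hf _ hy3]
  have e3 : (x0 + y2) + f (x0 - (x0 + y2)) = (x0 + y2) + a * y2 := by
    have : x0 - (x0 + y2) = y2 := by linear_combination (-y2) * two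
    rw [this, hf _ hy2]
  have g1 : a * t + f (y1 + (1 + a) * t - a * t) = a * y1 := by
    have : y1 + (1 + a) * t - a * t = y1 + t := by ring
    rw [this, hf _ ht2]
    linear_combination (a * t) * two
  have g2 : (x0 + y2 + a * t) + f (y1 + (1 + a) * t - (x0 + y2 + a * t)) = (x0 + y2) + a * (y1 + x0 + y2) := by
    have : y1 + (1 + a) * t - (x0 + y2 + a * t) = y1 + x0 + y2 + t := by linear_combination (-(x0 + y2)) * two
    rw [this, hf _ ht4]
    linear_combination (a * t) * two
  have g3 : (x0 + y2 + a * t) + f (x0 + (1 + a) * t - (x0 + y2 + a * t)) = (x0 + y2) + a * y2 := by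
    have : x0 + (1 + a) * t - (x0 + y2 + a * t) = y2 + t := by linear_combination (-y2) * two
    rw [this, hf _ ht3]
    linear_combination (a * t) * two
  have g0 : a * t + f (x0 + (1 + a) * t - a * t) = a * x0 := by
    have : x0 + (1 + a) * t - a * t = x0 + t := by ring
    rw [this, hf _ ht1]
    linear_combination (a * t) * two
  rw [e1, e2, e3] at k1
  rw [g0, g1, g2, g3] at k2
  have k3 := s.injective (k1.trans k2.symm)
  rw [sub_zero, zero_add] at k3
  exact h0 k3

end Pool.Agent.H84.PT
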