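import Pool.Agent.H84.PT.Ng

set_option autoImplicit false

namespace Pool.Agent.H84.PT

open Finset

/-- adding `c` on `V` -/
noncomputable def th {F : Type} [Field F] (V : F → Prop) (c : F) (x : F) : F := by
  classical exact if V x then x + c else x

theorem th_pos {F : Type} [Field F] {V : F → Prop} {c x : F} (h : V x) : th V c x = x + c := by
  unfold th; exact if_pos h

theorem th_neg {F : Type} [Field F] {V : F → Prop} {c x : F} (h : ¬ V x) : th V c x = x := by
  unfold th; exact if_neg h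

theorem inj_aux {F : Type} [Field F] [CharP F 2] (b v c : F) (hb : 1 + b ≠ 0) (hc : (1 + b) * v = c)
    (V : F → Prop) (hV1 : ∀ z, V (z + v) ↔ V z) (hV2 : ∀ z, V (b * (z + v)) ↔ V (b * z)) :
    Function.Injective (fun z => th V c (b * z) + th V c z) := by
  classical
  have two : (2 : F) = 0 := CharTwo.two_eq_zero
  have key : ∀ z, th V c (b * z) + th V c z = (1 + b) * (z + v * (if (V z ↔ V (b * z)) then 0 else 1)) := by
    intro z
    by_cases h1 : V z <;> by_cases h2 : V (b * z)
    · rw [th_pos h1, th_pos h2, if_pos (by tauto)]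
      linear_combination c * two
    · rw [th_pos h1, th_neg h2, if_neg (by tauto)]
      linear_combination -hc
    · rw [th_neg h1, th_pos h2, if_neg (by tauto)]
      linear_combination -hc
    · rw [th_neg h1, th_neg h2, if_pos (by tauto)]
      ring
  intro z z' h
  have h1 : (1 + b) * (z + v * (if (V z ↔ V (b * z)) then 0 else 1)) =
      (1 + b) * (z' + v * (if (V z' ↔ V (b * z')) then 0 else 1)) := by
    rw [← key, ← key]; exact h
  have h2 := mul_left_cancel₀ hb h1
  have h3 : ∀ w, (V (w + v) ↔ V (b * (w + v))) ↔ (V w ↔ V (b * w)) := by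
    intro w
    rw [hV1, hV2]
  by_cases k1 : (V z ↔ V (b * z)) <;> by_cases k2 : (V z' ↔ V (b * z'))
  · rw [if_pos k1, if_pos k2] at h2
    simpa using h2
  · rw [if_pos k1, if_neg k2] at h2
    exfalso
    have h4 : z = z' + v := by linear_combination h2
    rw [h4] at k1
    exact k2 ((h3 z').1 k1)
  · rw [if_neg k1, if_pos k2] at h2
    exfalso
    have h4 : z' = z + v := by linear_combination -h2
    rw [h4] at k2
    exact k1 ((h3 z).1 k2)
  · rw [if_neg k1, if_neg k2] at h2
    linear_combination h2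

/-- the span of `a, a ^ 2, a ^ 3` over the field with two elements -/
def Sp {F : Type} [Field F] [CharP F 2] (a x : F) : Prop :=
  ∃ i j l : ZMod 2, x = ZMod.castHom (dvd_refl 2) F i * a + ZMod.castHom (dvd_refl 2) F j * a ^ 2 +
    ZMod.castHom (dvd_refl 2) F l * a ^ 3

theorem sp_add {F : Type} [Field F] [CharP F 2] (a x : F) (i j l : ZMod 2) :
    Sp a (x + (ZMod.castHom (dvd_refl 2) F i * a + ZMod.castHom (dvd_refl 2) F j * a ^ 2 +
    ZMod.castHom (dvd_refl 2) F l * a ^ 3)) ↔ Sp a x := by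
  have two : (2 : F) = 0 := CharTwo.two_eq_zero
  constructor
  · rintro ⟨i', j', l', h⟩
    refine ⟨i' + i, j' + j, l' + l, ?_⟩
    rw [map_add, map_add, map_add]
    linear_combination h - (ZMod.castHom (dvd_refl 2) F i * a + ZMod.castHom (dvd_refl 2) F j * a ^ 2 +
      ZMod.castHom (dvd_refl 2) F l * a ^ 3) * two
  · rintro ⟨i', j', l', h⟩
    refine ⟨i' + i, j' + j, l' + l, ?_⟩
    rw [map_add, map_add, map_add]
    linear_combination h

theorem sp_per {F : Type} [Field F] [CharP F 2] (a x s : F) (i j l : ZMod 2)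
    (hs : s = ZMod.castHom (dvd_refl 2) F i * a + ZMod.castHom (dvd_refl 2) F j * a ^ 2 +
    ZMod.castHom (dvd_refl 2) F l * a ^ 3) : Sp a (x + s) ↔ Sp a x := by
  rw [hs]; exact sp_add a x i j l

/-- the function -/
noncomputable def ff {F : Type} [Field F] [CharP F 2] (a x : F) : F := th (Sp a) (a ^ 3 + a) (a * th (Sp a) (a ^ 3 + a) x)

theorem th_th {F : Type} [Field F] [CharP F 2] (a x : F) :
    th (Sp a) (a ^ 3 + a) (th (Sp a) (a ^ 3 + a) x) = x := by
  have two : (2 : F) = 0 := CharTwo.two_eq_zero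
  by_cases h : Sp a x
  · have h1 : Sp a (x + (a ^ 3 + a)) := (sp_per a x _ 1 0 1 (by rw [map_one, map_zero]; ring)).2 h
    rw [th_pos h, th_pos h1]
    linear_combination (a ^ 3 + a) * two
  · rw [th_neg h, th_neg h]

theorem ff_iter {F : Type} [Field F] [CharP F 2] (a : F) (n : ℕ) (x : F) :
    (ff a)^[n] x = th (Sp a) (a ^ 3 + a) (a ^ n * th (Sp a) (a ^ 3 + a) x) := by
  induction n with
  | zero => rw [pow_zero, one_mul, th_th]; rfl
  | succ n ih =>
    rw [Function.iterate_succ_apply', ih]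
    unfold ff
    rw [th_th, pow_succ']
    ring_nf

theorem th_inj {F : Type} [Field F] [CharP F 2] (a : F) : Function.Injective (th (Sp a) (a ^ 3 + a)) :=
  Function.LeftInverse.injective (g := th (Sp a) (a ^ 3 + a)) (th_th a)

theorem ff_inj {F : Type} [Field F] [CharP F 2] (a : F) (ha : a ≠ 0) : Function.Injective (ff a) := by
  intro x y h
  unfold ff at h
  exact th_inj a (mul_left_cancel₀ ha (th_inj a h))

theorem add_inj {F : Type} [Field F] [CharP F 2] (a : F) (ha1 : 1 + a ≠ 0) :
    Function.Injective (fun x => ff a x + x) := by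
  have two : (2 : F) = 0 := CharTwo.two_eq_zero
  have h := inj_aux a (a ^ 2 + a) (a ^ 3 + a) ha1 (by linear_combination a ^ 2 * two) (Sp a)
    (fun z => sp_per a z _ 1 1 0 (by rw [map_one, map_zero]; ring)) (fun z => by
      rw [show a * (z + (a ^ 2 + a)) = a * z + (a ^ 3 + a ^ 2) by ring]
      exact sp_per a _ _ 0 1 1 (by rw [map_one, map_zero]; ring))
  intro x y hxy
  have h1 := @h (th (Sp a) (a ^ 3 + a) x) (th (Sp a) (a ^ 3 + a) y) (by
    simp only [th_th]
    exact hxy)
  exact th_inj a h1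

theorem add_inj2 {F : Type} [Field F] [CharP F 2] (a : F) (ha1 : 1 + a ≠ 0) :
    Function.Injective (fun x => ff a (ff a x) + x) := by
  have two : (2 : F) = 0 := CharTwo.two_eq_zero
  have hb : 1 + a ^ 2 ≠ 0 := by
    have : 1 + a ^ 2 = (1 + a) * (1 + a) := by linear_combination -a * two
    rw [this]
    exact mul_ne_zero ha1 ha1
  have h := inj_aux (a ^ 2) a (a ^ 3 + a) hb (by ring) (Sp a)
    (fun z => sp_per a z _ 1 0 0 (by rw [map_one, map_zero]; ring)) (fun z => by
      rw [show a ^ 2 * (z + a) = a ^ 2 * z + a ^ 3 by ring]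
      exact sp_per a _ _ 0 0 1 (by rw [map_one, map_zero]; ring))
  intro x y hxy
  have e : ∀ x, ff a (ff a x) = th (Sp a) (a ^ 3 + a) (a ^ 2 * th (Sp a) (a ^ 3 + a) x) := fun x => ff_iter a 2 x
  have h1 := @h (th (Sp a) (a ^ 3 + a) x) (th (Sp a) (a ^ 3 + a) y) (by
    simp only [th_th]
    have := hxy
    simp only [e] at this
    exact this)
  exact th_inj a h1

/-- the places where `ff a x ≠ a * x` can happen -/
theorem ff_off {F : Type} [Field F] [CharP F 2] (a : F) (ha : a ≠ 0) : ∃ S : Finset F, S.card ≤ 12 ∧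
    ∀ x, x ∉ S → ff a x = a * x := by
  classical
  refine ⟨((univ : Finset (ZMod 2 × ZMod 2 × ZMod 2 × ZMod 2)).filter fun p => p.1 = 0 ∨ p.2.2.2 = 0).image
    (fun p => ZMod.castHom (dvd_refl 2) F p.1 + ZMod.castHom (dvd_refl 2) F p.2.1 * a +
      ZMod.castHom (dvd_refl 2) F p.2.2.1 * a ^ 2 + ZMod.castHom (dvd_refl 2) F p.2.2.2 * a ^ 3), ?_, ?_⟩
  · refine le_trans card_image_le ?_
    decide
  · intro x hx
    have h1 : ¬ Sp a x := by
      rintro ⟨i, j, l, h⟩
      apply hx
      rw [mem_image]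
      refine ⟨(0, i, j, l), by simp, ?_⟩
      simp only [map_zero]
      rw [h]; ring
    have h2 : ¬ Sp a (a * x) := by
      rintro ⟨i, j, l, h⟩
      apply hx
      rw [mem_image]
      refine ⟨(i, j, l, 0), by simp, ?_⟩
      simp only [map_zero]
      apply mul_left_cancel₀ ha
      rw [h]; ring
    unfold ff
    rw [th_neg h1, th_neg h2]

theorem ff_zero {F : Type} [Field F] [CharP F 2] (a : F) (ha : a ≠ 0) (ha1 : 1 + a ≠ 0) : ff a 0 ≠ a * 0 := by
  have two : (2 : F) = 0 := CharTwo.two_eq_zero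
  have h0 : Sp a 0 := ⟨0, 0, 0, by simp⟩
  have hc : a ^ 3 + a ≠ 0 := by
    have : a ^ 3 + a = a * ((1 + a) * (1 + a)) := by linear_combination -a ^ 2 * two
    rw [this]
    exact mul_ne_zero ha (mul_ne_zero ha1 ha1)
  rw [mul_zero]
  unfold ff
  rw [th_pos h0, zero_add]
  by_cases h : Sp a (a * (a ^ 3 + a))
  · rw [th_pos h]
    have : a * (a ^ 3 + a) + (a ^ 3 + a) = (1 + a) * (a ^ 3 + a) := by ring
    rw [this]
    exact mul_ne_zero ha1 hc
  · rw [th_neg h]
    exact mul_ne_zero ha hc

end Pool.Agent.H84.PT
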