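import Pool.Agent.H84.PT.Gch
import Pool.Agent.H32.BT.Mult
import Pool.Agent.H32.BT.TrapSink

/-!
PolynomialThreshold (MP_8f2e1c_an), part (4): a pair of degree `n` with a sink whose cycle avoids infinity is a limit of coprime pairs of
degree `d ≥ n` with a sink.

Chart `w = 1/(z - s)` with `s` not attracted: `(PB, QB)`, infinity is not attracted, the sink is finite and its cycle avoids `0` (the image of
infinity); `(P, Q)` becomes in degree `d` the pair `(PB X^k, QB X^k)`, `k = d - n`; `sink_of_mult` at this pair; `(PB X^k + t, QB X^k)` is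
coprime of degree `d` for all small `t ≠ 0` outside a finite set.
-/

set_option autoImplicit false

open Filter Topology Polynomial OnePoint Set

namespace Pool.Agent.H84.PT

open Pool.Agent.H44.Fatou Pool.Agent.H32.BT Pool.Agent.H84.BR

theorem cj_pad (s : ℂ) {n k : ℕ} {P Q : ℂ[X]} (hP : P.natDegree ≤ n) (hQ : Q.natDegree ≤ n) :
    cj1 s (n + k) P Q = cj1 s n P Q * X ^ k ∧ cj2 s (n + k) P Q = cj2 s n P Q * X ^ k := by
  have h := cj_mul s (e := n) (k := k) (A := P) (B := Q) (H := 1) hP hQ (by rw [natDegree_one]; exact Nat.zero_le _)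
  rw [mul_one, mul_one, one_comp, reflect_one] at h
  exact h

theorem cop_pert {n k : ℕ} (hn : 2 ≤ n) {P Q : ℂ[X]} (h : IsCoprime P Q) (hd : max P.natDegree Q.natDegree = n) :
    ∃ F : Finset ℂ, ∀ t : ℂ, t ∉ F → IsCoprime (P * X ^ k + C t) (Q * X ^ k) ∧
      max (P * X ^ k + C t).natDegree (Q * X ^ k).natDegree = n + k := by
  classical
  have hQ0 : Q ≠ 0 := den_ne_zero h (by omega)
  refine ⟨insert 0 (Q.roots.toFinset.image fun b => -(P.eval b * b ^ k)), fun t ht => ⟨?_, ?_⟩⟩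
  · rw [Finset.mem_insert, not_or, Finset.mem_image] at ht
    obtain ⟨ht0, ht1⟩ := ht
    rw [Polynomial.isCoprime_iff_aeval_ne_zero_of_isAlgClosed ℂ ℂ]
    intro z
    rw [coe_aeval_eq_eval, eval_add, eval_mul, eval_pow, eval_X, eval_C, eval_mul, eval_pow, eval_X]
    by_contra hcon
    push Not at hcon
    obtain ⟨e1, e2⟩ := hcon
    rcases mul_eq_zero.1 e2 with e3 | e3
    · apply ht1
      refine ⟨z, ?_, ?_⟩
      · rw [Multiset.mem_toFinset, mem_roots hQ0]
        exact e3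
      · linear_combination -e1
    · rw [e3, mul_zero, zero_add] at e1
      exact ht0 e1
  · have hP' : (P * X ^ k + C t).natDegree ≤ n + k := by
      refine (natDegree_add_le _ _).trans (max_le ?_ ?_)
      · refine natDegree_mul_le.trans ?_
        rw [natDegree_X_pow]
        have := le_max_left P.natDegree Q.natDegree
        omega
      · rw [natDegree_C]
        exact Nat.zero_le _
    have hQ' : (Q * X ^ k).natDegree ≤ n + k := by
      refine natDegree_mul_le.trans ?_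
      rw [natDegree_X_pow]
      have := le_max_right P.natDegree Q.natDegree
      omega
    refine le_antisymm (max_le hP' hQ') ?_
    rcases le_total P.natDegree Q.natDegree with hc | hc
    · rw [max_eq_right hc] at hd
      refine le_trans ?_ (le_max_right _ _)
      rw [natDegree_mul_X_pow k hQ0, hd]
    · rw [max_eq_left hc] at hd
      refine le_trans ?_ (le_max_left _ _)
      apply le_natDegree_of_ne_zero
      have hP0 : P ≠ 0 := by
        rintro rfl
        rw [natDegree_zero] at hd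
        omega
      rw [coeff_add, coeff_C_of_ne_zero (by omega), add_zero, coeff_mul_X_pow, ← hd]
      exact leadingCoeff_ne_zero.2 hP0

theorem sink_pert {n d : ℕ} (hn : 2 ≤ n) (hnd : n ≤ d) {P Q : ℂ[X]} (h : IsCoprime P Q)
    (hd : max P.natDegree Q.natDegree = n) {s : ℂ} (hs : ¬ Att (rat P Q) (s : OnePoint ℂ)) {z : OnePoint ℂ} {m : ℕ}
    (hz : IsSink (rat P Q) z m) (hinf : ∀ j : ℕ, (rat P Q)^[j] z ≠ ∞) {ε : ℝ} (hε : 0 < ε) :
    ∃ P' Q' : ℂ[X], IsCoprime P' Q' ∧ max P'.natDegree Q'.natDegree = d ∧ Near ε P' Q' P Q ∧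
      ∃ z m, IsSink (rat P' Q') z m := by
  classical
  obtain ⟨k, rfl⟩ : ∃ k, d = n + k := ⟨d - n, by omega⟩
  have hP : P.natDegree ≤ n := by rw [← hd]; exact le_max_left _ _
  have hQ : Q.natDegree ≤ n := by rw [← hd]; exact le_max_right _ _
  obtain ⟨φ, -, hφs, hφi, hφ⟩ := exists_mob s
  obtain ⟨k1, k2, k3⟩ := hφ n P Q h hd (by omega)
  obtain ⟨PB, hPB⟩ : ∃ PB, PB = cj1 s n P Q := ⟨_, rfl⟩
  obtain ⟨QB, hQB⟩ : ∃ QB, QB = cj2 s n P Q := ⟨_, rfl⟩
  rw [← hPB, ← hQB] at k1 k2 k3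
  have hattinf : ¬ Att (rat PB QB) ∞ := by
    rw [← hφs, att_conj φ k3]
    exact hs
  have hzB : IsSink (rat PB QB) (φ z) m := (isSink_conj φ k3 z m).2 hz
  have hzfin : φ z ≠ ∞ := by
    intro h0
    apply hattinf
    rw [← h0]
    exact att_sink hzB
  obtain ⟨w, hw⟩ : ∃ w : ℂ, φ z = (w : OnePoint ℂ) := by
    induction hx : φ z using OnePoint.rec with
    | infty => exact absurd hx hzfin
    | coe w => exact ⟨w, rfl⟩
  rw [hw] at hzB
  obtain ⟨x, hx0, hx1, hx2, hx3, hx4, hx5⟩ := sink_mult k1 (by omega) hattinf hzB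
  have hxne : ∀ j, x j ≠ 0 := by
    intro j hj
    apply hinf j
    apply φ.injective
    rw [hφi, ← iter_conj φ k3, hw, hx1 j, hj]
  have hPBd : PB.natDegree ≤ n := by rw [← k2]; exact le_max_left _ _
  have hQBd : QB.natDegree ≤ n := by rw [← k2]; exact le_max_right _ _
  have hPk : (PB * X ^ k).natDegree ≤ n + k := by
    refine natDegree_mul_le.trans ?_
    rw [natDegree_X_pow]
    omega
  have hQk : (QB * X ^ k).natDegree ≤ n + k := by
    refine natDegree_mul_le.trans ?_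
    rw [natDegree_X_pow]
    omega
  obtain ⟨r, hr, -, hev⟩ := sink_of_mult (d := n + k) (cf (n + k) (PB * X ^ k), cf (n + k) (QB * X ^ k)) x m hz.1 hx4
    (fun j _ => by
      show ev (cf (n + k) (QB * X ^ k)) (x j) ≠ 0
      rw [ev_cf hQk, eval_mul, eval_pow, eval_X]
      exact mul_ne_zero (hx2 j) (pow_ne_zero k (hxne j)))
    (fun j _ => by
      show ev (cf (n + k) (PB * X ^ k)) (x j) / ev (cf (n + k) (QB * X ^ k)) (x j) = x (j + 1)
      rw [ev_cf hQk, ev_cf hPk, eval_mul, eval_mul, eval_pow, eval_X, mul_div_mul_right _ _ (pow_ne_zero k (hxne j))]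
      exact hx3 j)
    (by
      have h1 : ∀ j ∈ Finset.range m, wv (cf (n + k) (PB * X ^ k), cf (n + k) (QB * X ^ k)) (x j) /
          ev (cf (n + k) (PB * X ^ k), cf (n + k) (QB * X ^ k)).2 (x j) ^ 2 =
          (Wr PB QB).eval (x j) / (QB.eval (x j)) ^ 2 := by
        intro j _
        have h2 := hx2 j
        have h3 : x j ^ k ≠ 0 := pow_ne_zero k (hxne j)
        have h4 : (Wr (PB * X ^ k) (QB * X ^ k)).eval (x j) = (Wr PB QB).eval (x j) * (x j ^ k) ^ 2 := by
          have h5 : Wr (PB * X ^ k) (QB * X ^ k) = Wr PB QB * (X ^ k) ^ 2 := by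
            unfold Wr
            rw [derivative_mul, derivative_mul]
            ring
          rw [h5, eval_mul, eval_pow, eval_pow, eval_X]
        show wv (cf (n + k) (PB * X ^ k), cf (n + k) (QB * X ^ k)) (x j) /
          ev (cf (n + k) (QB * X ^ k)) (x j) ^ 2 = _
        rw [wv_cf hPk hQk, ev_cf hQk, h4, eval_mul, eval_pow, eval_X]
        field_simp
      rw [Finset.prod_congr rfl h1]
      exact hx5) univ univ_mem
  -- the coprime perturbations
  obtain ⟨F, hF⟩ := cop_pert (k := k) hn k1 k2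
  have hK : 0 < (1 + ‖s‖) * shM (-s) (n + k) := by
    have := shM_pos (-s) (n + k)
    positivity
  obtain ⟨ρ', hρ', hlt⟩ := exists_small hK hε
  rw [mul_assoc] at hlt
  have hcont : Continuous fun t : ℂ => ((cf (n + k) (PB * X ^ k + C t), cf (n + k) (QB * X ^ k)) :
      (Fin (n + k + 1) → ℂ) × (Fin (n + k + 1) → ℂ)) := by
    refine Continuous.prodMk ?_ continuous_const
    refine continuous_pi fun i => ?_
    unfold cf
    simp only [coeff_add, coeff_C]
    by_cases hi : (i : ℕ) = 0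
    · simp only [hi, if_true]
      exact continuous_const.add continuous_id
    · simp only [hi, if_false]
      exact continuous_const
  have hev2 : ∀ᶠ t : ℂ in 𝓝 0, ∀ P Q : Polynomial ℂ, IsCoprime P Q → P.natDegree ≤ n + k → Q.natDegree ≤ n + k →
        ((cf (n + k) (PB * X ^ k + C t), cf (n + k) (QB * X ^ k)) :
          (Fin (n + k + 1) → ℂ) × (Fin (n + k + 1) → ℂ)) = (cf (n + k) P, cf (n + k) Q) →
        ∃ z ∈ Metric.ball (x 0) r, IsSink (rat P Q) (z : OnePoint ℂ) m := by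
    have h1 : Tendsto (fun t : ℂ => ((cf (n + k) (PB * X ^ k + C t), cf (n + k) (QB * X ^ k)) :
        (Fin (n + k + 1) → ℂ) × (Fin (n + k + 1) → ℂ))) (𝓝 0)
        (𝓝 (cf (n + k) (PB * X ^ k), cf (n + k) (QB * X ^ k))) := by
      have h2 := hcont.tendsto 0
      rw [C_0, add_zero] at h2
      exact h2
    filter_upwards [h1.eventually hev] with t ht P Q e1 e2 e3 e4
    obtain ⟨z, hz1, hz2, -⟩ := ht P Q e1 e2 e3 e4
    exact ⟨z, hz1, hz2⟩
  have hsmall : ∀ᶠ t : ℂ in 𝓝 0, ‖t‖ < ρ' := by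
    have := Metric.ball_mem_nhds (0 : ℂ) hρ'
    filter_upwards [this] with t ht
    rwa [mem_ball_zero_iff] at ht
  have hfin : ∀ᶠ t : ℂ in 𝓝[≠] 0, t ∉ F := by
    have h1 : ((F : Set ℂ) \ {0}).Finite := F.finite_toSet.subset sdiff_subset
    have h2 : ((F : Set ℂ) \ {0})ᶜ ∈ 𝓝 (0 : ℂ) := h1.isClosed.isOpen_compl.mem_nhds (by simp)
    filter_upwards [mem_nhdsWithin_of_mem_nhds h2, self_mem_nhdsWithin] with t ht1 ht2 ht3
    exact ht1 ⟨ht3, ht2⟩
  obtain ⟨t, ht1, ht2, ht3⟩ := ((hfin.and ((hev2.and hsmall).filter_mono nhdsWithin_le_nhds))).exists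
  obtain ⟨c1, c2⟩ := hF t ht1
  obtain ⟨A, hA⟩ : ∃ A, A = PB * X ^ k + C t := ⟨_, rfl⟩
  obtain ⟨B, hB⟩ : ∃ B, B = QB * X ^ k := ⟨_, rfl⟩
  rw [← hA, ← hB] at c1 c2 ht2
  have hAd : A.natDegree ≤ n + k := by rw [← c2]; exact le_max_left _ _
  have hBd : B.natDegree ≤ n + k := by rw [← c2]; exact le_max_right _ _
  obtain ⟨y, -, hy⟩ := ht2 A B c1 hAd hBd rfl
  have hc1 : cj1 s (n + k) (sj1 s (n + k) A B) (sj2 s (n + k) A) = A := cj1_sj s _ A B
  have hc2 : cj2 s (n + k) (sj1 s (n + k) A B) (sj2 s (n + k) A) = B := cj2_sj s _ A B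
  have hback := cj_back s (sj1_deg s hAd hBd) (sj2_deg s hAd)
    (by rw [hc1, hc2]; exact c1) (by rw [hc1, hc2]; exact c2)
  obtain ⟨-, -, h3⟩ := hφ (n + k) (sj1 s (n + k) A B) (sj2 s (n + k) A) hback.1 hback.2 (by omega)
  rw [hc1, hc2] at h3
  obtain ⟨p1, p2⟩ := cj_pad s (k := k) hP hQ
  rw [← hPB] at p1
  rw [← hQB] at p2
  have hnear : Near ρ' A B (PB * X ^ k) (QB * X ^ k) := by
    intro i
    constructor
    · rw [hA, coeff_add, add_sub_cancel_left, coeff_C]
      split_ifs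
      · exact ht3
      · rw [norm_zero]
        exact hρ'
    · rw [hB, sub_self, norm_zero]
      exact hρ'
  have hn' := near_sj s hAd hBd hPk hQk hρ' hlt hnear
  have q1 : sj1 s (n + k) (PB * X ^ k) (QB * X ^ k) = P := by
    rw [← p1, ← p2]
    exact sj1_cj s (n + k) P Q
  have q2 : sj2 s (n + k) (PB * X ^ k) = Q := by
    rw [← p1]
    exact sj2_cj s (n + k) P Q
  rw [q1, q2] at hn'
  refine ⟨sj1 s (n + k) A B, sj2 s (n + k) A, hback.1, hback.2, hn', φ.symm (y : OnePoint ℂ), m, ?_⟩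
  rw [← isSink_conj φ h3, φ.apply_symm_apply]
  exact hy

end Pool.Agent.H84.PT
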